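import Pool.Agent.Helper22.LFC5

/-!
# Combinatorial regularity
-/

namespace Pool.Agent.Helper22

open Matrix RegTiling

/-- The simplicial complex of the tiling. -/
def Cx : Type := {σ : Finset ZV // ∃ g ∈ Gam, σ ⊆ cols g}

instance : PartialOrder Cx := inferInstanceAs (PartialOrder {σ : Finset ZV // ∃ g ∈ Gam, σ ⊆ cols g})

theorem Cx.le_iff {σ τ : Cx} : σ ≤ τ ↔ σ.1 ⊆ τ.1 := Iff.rfl

theorem hull_ne_univ (σ : Finset ZV) : hull σ ≠ Set.univ := by
  intro h
  have h1 : IsCompact (hull σ) := (hull_finite σ).isCompact_convexHull ℝ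
  rw [h] at h1
  exact noncompact_univ (E 4) h1

/-- The map to the face lattice. -/
noncomputable def toFace : WithTop Cx → FaceLattice T5 := fun a =>
  WithTop.recTopCoe (C := fun _ => FaceLattice T5) ⟨Set.univ, Or.inr (Or.inl rfl)⟩
    (fun σ : Cx => ⟨hull σ.1, by
      obtain ⟨g, hg, hσ⟩ := σ.2
      exact Or.inr (Or.inr ⟨hull (cols g), ⟨g, hg, rfl⟩, isFace_hull hg hσ⟩)⟩) a

theorem toFace_top : (toFace ⊤).1 = Set.univ := rfl
theorem toFace_coe (σ : Cx) : (toFace (σ : WithTop Cx)).1 = hull σ.1 := rfl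

theorem toFace_le_iff (a b : WithTop Cx) : toFace a ≤ toFace b ↔ a ≤ b := by
  have hle : ∀ x y : FaceLattice T5, x ≤ y ↔ x.1 ⊆ y.1 := fun _ _ => Iff.rfl
  rw [hle]
  induction b using WithTop.recTopCoe with
  | top => simp [toFace_top]
  | coe τ =>
    induction a using WithTop.recTopCoe with
    | top =>
      rw [toFace_top, toFace_coe]
      constructor
      · intro h
        exact absurd (Set.univ_subset_iff.mp h) (hull_ne_univ _)
      · intro h
        exact absurd (top_le_iff.mp h) (WithTop.coe_ne_top)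
    | coe σ =>
      rw [toFace_coe, toFace_coe, WithTop.coe_le_coe, Cx.le_iff]
      obtain ⟨g, hg, hσ⟩ := σ.2
      obtain ⟨h, hh, hτ⟩ := τ.2
      exact hull_subset_iff hg hh hσ hτ

theorem toFace_surj : Function.Surjective toFace := by
  classical
  rintro ⟨F, hF⟩
  rcases hF with rfl | rfl | ⟨T, ⟨g, hg, rfl⟩, hF⟩
  · let σ0 : Cx := ⟨∅, 1, Gam.one_mem, Finset.empty_subset _⟩
    refine ⟨(σ0 : WithTop Cx), ?_⟩
    apply Subtype.ext
    rw [toFace_coe]
    simp [hull, σ0]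
  · exact ⟨⊤, Subtype.ext toFace_top⟩
  · let σ0 : Cx := ⟨(cols g).filter (fun v => PP v ∈ F), g, hg, Finset.filter_subset _ _⟩
    refine ⟨(σ0 : WithTop Cx), ?_⟩
    apply Subtype.ext
    rw [toFace_coe]
    have h1 := hF.eq_hull (hull_finite (cols g))
    change hull ((cols g).filter (fun v => PP v ∈ F)) = F
    rw [h1, hull]
    congr 1
    ext y
    constructor
    · rintro ⟨v, hv, rfl⟩
      rw [Finset.coe_filter] at hv
      refine ⟨⟨v, hv.1, rfl⟩, ?_⟩
      have := hv.2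
      rwa [← h1] at this
    · rintro ⟨⟨v, hv, rfl⟩, hy⟩
      refine ⟨v, ?_, rfl⟩
      rw [Finset.coe_filter]
      exact ⟨hv, by rwa [← h1]⟩

/-- The face lattice is the simplicial complex with a top element adjoined. -/
noncomputable def faceIso : WithTop Cx ≃o FaceLattice T5 where
  toEquiv := Equiv.ofBijective toFace ⟨by
    intro a b h
    apply le_antisymm
    · exact (toFace_le_iff a b).mp h.le
    · exact (toFace_le_iff b a).mp h.ge, toFace_surj⟩
  map_rel_iff' := by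
    intro a b
    exact toFace_le_iff a b

theorem mulVec_injective (g : UU) :
    Function.Injective (fun v : ZV => (g : Matrix (Fin 5) (Fin 5) ZP) *ᵥ v) := by
  intro v w h
  have h1 : (g⁻¹ : UU).val *ᵥ ((g : Matrix (Fin 5) (Fin 5) ZP) *ᵥ v) =
    (g⁻¹ : UU).val *ᵥ ((g : Matrix (Fin 5) (Fin 5) ZP) *ᵥ w) := congrArg _ h
  rwa [Matrix.mulVec_mulVec, Matrix.mulVec_mulVec, Units.inv_mul, Matrix.one_mulVec,
    Matrix.one_mulVec] at h1

/-- Image of a vertex set under a group element. -/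
def im (g : UU) (σ : Finset ZV) : Finset ZV :=
  σ.image (fun v => (g : Matrix (Fin 5) (Fin 5) ZP) *ᵥ v)

theorem im_cols (g h : UU) : im g (cols h) = cols (g * h) := by
  unfold im cols
  rw [Finset.image_image]
  congr 1
  funext j
  simp only [Function.comp, col]
  rw [Matrix.mulVec_mulVec, Units.val_mul]

theorem im_im (g h : UU) (σ : Finset ZV) : im g (im h σ) = im (g * h) σ := by
  unfold im
  rw [Finset.image_image]
  congr 1
  funext v
  simp only [Function.comp]
  rw [Matrix.mulVec_mulVec, Units.val_mul]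

theorem im_one (σ : Finset ZV) : im 1 σ = σ := by
  unfold im
  simp

theorem im_mono {g : UU} {σ τ : Finset ZV} (h : σ ⊆ τ) : im g σ ⊆ im g τ :=
  Finset.image_subset_image h

/-- The automorphism of the complex given by a group element. -/
def aut (g : UU) (hg : g ∈ Gam) : Cx ≃o Cx where
  toFun σ := ⟨im g σ.1, by
    obtain ⟨h, hh, hσ⟩ := σ.2
    exact ⟨g * h, Gam.mul_mem hg hh, by rw [← im_cols]; exact im_mono hσ⟩⟩
  invFun σ := ⟨im g⁻¹ σ.1, by
    obtain ⟨h, hh, hσ⟩ := σ.2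
    exact ⟨g⁻¹ * h, Gam.mul_mem (Gam.inv_mem hg) hh, by rw [← im_cols]; exact im_mono hσ⟩⟩
  left_inv σ := Subtype.ext (by
    change im g⁻¹ (im g σ.1) = σ.1
    rw [im_im, inv_mul_cancel, im_one])
  right_inv σ := Subtype.ext (by
    change im g (im g⁻¹ σ.1) = σ.1
    rw [im_im, mul_inv_cancel, im_one])
  map_rel_iff' := by
    intro σ τ
    change im g σ.1 ⊆ im g τ.1 ↔ σ.1 ⊆ τ.1
    exact Finset.image_subset_image_iff (mulVec_injective g)

theorem aut_apply (g : UU) (hg : g ∈ Gam) (σ : Cx) : (aut g hg σ).1 = im g σ.1 := rfl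

/-- Permutation matrices. -/
def Pmm (p : Equiv.Perm (Fin 5)) : Matrix (Fin 5) (Fin 5) ZP := fun i j => if i = p j then 1 else 0

theorem Pmm_mul (p q : Equiv.Perm (Fin 5)) : Pmm p * Pmm q = Pmm (p * q) := by
  refine Matrix.ext fun i j => ?_
  simp [Matrix.mul_apply, Pmm]

theorem Pmm_one : Pmm 1 = 1 := by
  refine Matrix.ext fun i j => ?_
  simp [Pmm, Matrix.one_apply]

/-- Permutation matrices as units. -/
def Pm (p : Equiv.Perm (Fin 5)) : UU :=
  ⟨Pmm p, Pmm p⁻¹, by rw [Pmm_mul, mul_inv_cancel, Pmm_one],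
    by rw [Pmm_mul, inv_mul_cancel, Pmm_one]⟩

theorem Pm_mulVec (p : Equiv.Perm (Fin 5)) (j : Fin 5) :
    (Pm p : Matrix (Fin 5) (Fin 5) ZP) *ᵥ Pi.single j 1 = Pi.single (p j) 1 := by
  rw [Matrix.mulVec_single_one]
  funext i
  simp only [Pm, Pmm, Matrix.col_apply, Pi.single_apply]

theorem Pm_isom (p : Equiv.Perm (Fin 5)) :
    (Pm p : Matrix (Fin 5) (Fin 5) ZP)ᵀ * Gm om * (Pm p : Matrix (Fin 5) (Fin 5) ZP) = Gm om := by
  refine Matrix.ext fun i j => ?_
  simp [Matrix.mul_apply, Pm, Pmm, Gm, Matrix.transpose_apply]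

theorem Pm_mem (p : Equiv.Perm (Fin 5)) : Pm p ∈ Gam := by
  refine mem_Gam_of (X0 := evv (Pi.single 0 1)) (Pm_isom p) (VV.fut (single_mem_VV 0)) ?_
  rw [← evv_mulVec, Pm_mulVec]
  exact VV.fut (single_mem_VV _)

theorem col_mul_Pm (g : UU) (p : Equiv.Perm (Fin 5)) (j : Fin 5) :
    col (g * Pm p) j = col g (p j) := by
  unfold col
  rw [Units.val_mul, ← Matrix.mulVec_mulVec, Pm_mulVec]

end Pool.Agent.Helper22
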