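import Pool.Agent.Helper22.Comb5

/-!
# Flag transitivity
-/

namespace Pool.Agent.Helper22

open Matrix RegTiling

/-- Initial segment of a frame. -/
def seg (g : UU) (k : ℕ) : Finset ZV :=
  (Finset.univ.filter (fun j : Fin 5 => (j : ℕ) < k)).image (col g)

theorem seg_subset (g : UU) (k : ℕ) : seg g k ⊆ cols g :=
  Finset.image_subset_image (Finset.filter_subset _ _)

/-- Initial segment as a member of the complex. -/
def segC (g : UU) (hg : g ∈ Gam) (k : ℕ) : Cx := ⟨seg g k, g, hg, seg_subset g k⟩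

theorem Cx.card_le (σ : Cx) : σ.1.card ≤ 5 := by
  obtain ⟨g, _, h⟩ := σ.2
  exact (Finset.card_le_card h).trans (cols_card g).le

/-- Every flag comes from a frame. -/
theorem flag_form (Φ : Flag (WithTop Cx)) : ∃ g, ∃ hg : g ∈ Gam,
    (Φ : Set (WithTop Cx)) =
      {a : WithTop Cx | a = ⊤ ∨ ∃ k ≤ 5, a = ((segC g hg k : Cx) : WithTop Cx)} := by
  classical
  have : Nonempty Cx := ⟨⟨∅, 1, Gam.one_mem, Finset.empty_subset _⟩⟩
  set c : Set Cx := {σ | (σ : WithTop Cx) ∈ Φ} with hc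
  have hchain : ∀ σ ∈ c, ∀ τ ∈ c, σ.1 ⊆ τ.1 ∨ τ.1 ⊆ σ.1 := by
    intro σ hσ τ hτ
    rcases Φ.le_or_le hσ hτ with h | h
    · exact Or.inl (WithTop.coe_le_coe.mp h : σ ≤ τ)
    · exact Or.inr (WithTop.coe_le_coe.mp h : τ ≤ σ)
  have hmax : ∀ ρ : Cx, (∀ π ∈ c, ρ.1 ⊆ π.1 ∨ π.1 ⊆ ρ.1) → ρ ∈ c := by
    intro ρ h
    rw [hc, Set.mem_ofPred_eq, Flag.mem_iff_forall_le_or_ge]
    intro b hb
    induction b using WithTop.recTopCoe with
    | top => exact Or.inl le_top
    | coe π =>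
      rcases h π hb with h1 | h1
      · exact Or.inl (WithTop.coe_le_coe.mpr (show ρ ≤ π from h1))
      · exact Or.inr (WithTop.coe_le_coe.mpr (show π ≤ ρ from h1))
  have hsub : ∀ σ ∈ c, ∀ τ ∈ c, σ.1.card ≤ τ.1.card → σ.1 ⊆ τ.1 := by
    intro σ hσ τ hτ hle
    rcases hchain σ hσ τ hτ with h | h
    · exact h
    · rw [Finset.eq_of_subset_of_card_le h hle]
  -- a tile in the flag
  obtain ⟨g0, hg0, t0, ht0, ht0e⟩ : ∃ g0 ∈ Gam, ∃ t0 ∈ c, t0.1 = cols g0 := by
    set S : Set ℕ := {m | ∃ σ ∈ c, σ.1.card = m} with hS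
    have hfin : S.Finite := (Set.finite_Iic 5).subset (by
      rintro m ⟨σ, _, rfl⟩
      exact σ.card_le)
    have hne : S.Nonempty := by
      refine ⟨0, ⟨∅, 1, Gam.one_mem, Finset.empty_subset _⟩, ?_, rfl⟩
      apply hmax
      intro π _
      exact Or.inl (Finset.empty_subset _)
    obtain ⟨m, ⟨σ, hσ, hσm⟩, hm⟩ := Set.exists_max_image S id hfin hne
    obtain ⟨g, hg, hsg⟩ := σ.2
    have h1 : ∀ τ ∈ c, τ.1 ⊆ σ.1 := by
      intro τ hτ
      apply hsub τ hτ σ hσ
      rw [hσm]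
      exact hm _ ⟨τ, hτ, rfl⟩
    have h2 : (⟨cols g, g, hg, Finset.Subset.refl _⟩ : Cx) ∈ c := by
      apply hmax
      intro π hπ
      exact Or.inr ((h1 π hπ).trans hsg)
    exact ⟨g, hg, _, h2, rfl⟩
  -- all cardinalities occur
  have hstep : ∀ k < 5, (∃ σ ∈ c, σ.1.card = k) → ∃ σ ∈ c, σ.1.card = k + 1 := by
    rintro k hk ⟨σ, hσ, hσk⟩
    have hex : ∃ m, k < m ∧ ∃ τ ∈ c, τ.1.card = m :=
      ⟨5, hk, t0, ht0, by rw [ht0e, cols_card]⟩
    obtain ⟨h1, τ, hτ, hτm⟩ := Nat.find_spec hex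
    have hmin : ∀ π ∈ c, k < π.1.card → τ.1.card ≤ π.1.card := by
      intro π hπ hlt
      rw [hτm]
      exact Nat.find_min' hex ⟨hlt, π, hπ, rfl⟩
    have hστ : σ.1 ⊆ τ.1 := hsub σ hσ τ hτ (by omega)
    have hne : (τ.1 \ σ.1).Nonempty := by
      rw [← Finset.card_pos, Finset.card_sdiff_of_subset hστ]
      omega
    obtain ⟨v, hv⟩ := hne
    rw [Finset.mem_sdiff] at hv
    have hρ : insert v σ.1 ⊆ τ.1 := Finset.insert_subset hv.1 hστ
    obtain ⟨g, hg, hτg⟩ := τ.2
    refine ⟨⟨insert v σ.1, g, hg, hρ.trans hτg⟩, ?_, ?_⟩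
    · apply hmax
      intro π hπ
      rcases le_or_gt π.1.card k with h2 | h2
      · right
        exact (hsub π hπ σ hσ (by omega)).trans (Finset.subset_insert _ _)
      · left
        exact hρ.trans (hsub τ hτ π hπ (hmin π hπ h2))
    · change (insert v σ.1).card = k + 1
      rw [Finset.card_insert_of_notMem hv.2, hσk]
  have hall : ∀ k ≤ 5, ∃ σ ∈ c, σ.1.card = k := by
    intro k
    induction k with
    | zero =>
      intro _
      refine ⟨⟨∅, 1, Gam.one_mem, Finset.empty_subset _⟩, ?_, rfl⟩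
      apply hmax
      intro π _
      exact Or.inl (Finset.empty_subset _)
    | succ k ih =>
      intro hk
      exact hstep k (by omega) (ih (by omega))
  choose! s hs1 hs2 using hall
  have hins : ∀ k, k < 5 → ∃ a, a ∉ (s k).1 ∧ insert a (s k).1 = (s (k + 1)).1 := by
    intro k hk
    have h1 : (s k).1 ⊆ (s (k + 1)).1 :=
      hsub _ (hs1 k (by omega)) _ (hs1 (k + 1) (by omega))
        (by rw [hs2 k (by omega), hs2 (k + 1) (by omega)]; omega)
    have h2 : (s k).1.card + 1 = (s (k + 1)).1.card := by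
      rw [hs2 k (by omega), hs2 (k + 1) (by omega)]
    obtain ⟨a, ha, he⟩ := Finset.exists_eq_insert_iff.mpr ⟨h1, h2⟩
    exact ⟨a, ha, he⟩
  choose! v hv1 hv2 using hins
  set w : Fin 5 → ZV := fun j => v j with hw
  have hseg : ∀ k ≤ 5, (s k).1 = (Finset.univ.filter (fun j : Fin 5 => (j : ℕ) < k)).image w := by
    intro k
    induction k with
    | zero =>
      intro _
      have : (s 0).1 = ∅ := Finset.card_eq_zero.mp (hs2 0 (by omega))
      rw [this]; simp
    | succ k ih =>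
      intro hk
      rw [← hv2 k (by omega), ih (by omega)]
      ext x
      simp only [Finset.mem_insert, Finset.mem_image, Finset.mem_filter, Finset.mem_univ,
        true_and]
      constructor
      · rintro (rfl | ⟨j, hj, rfl⟩)
        · exact ⟨⟨k, by omega⟩, by simp, rfl⟩
        · exact ⟨j, by omega, rfl⟩
      · rintro ⟨j, hj, rfl⟩
        rcases Nat.lt_succ_iff_lt_or_eq.mp hj with h | h
        · exact Or.inr ⟨j, h, rfl⟩
        · left
          rw [hw]; simp only; rw [h]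
  have h5 : (s 5).1 = cols g0 := by
    have h1 : (s 5).1 ⊆ t0.1 := hsub _ (hs1 5 le_rfl) _ ht0
      (by rw [hs2 5 le_rfl, ht0e, cols_card])
    rw [← ht0e]
    exact Finset.eq_of_subset_of_card_le h1 (by rw [hs2 5 le_rfl, ht0e, cols_card])
  have hwimg : Finset.univ.image w = cols g0 := by
    rw [← h5, hseg 5 le_rfl]
    congr 1
  have hwinj : Function.Injective w := by
    rw [← Set.injOn_univ, ← Finset.coe_univ]
    rw [← Finset.card_image_iff, hwimg, cols_card]; simp
  have hp : ∀ j, ∃ i, col g0 i = w j := by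
    intro j
    apply mem_cols.mp
    rw [← hwimg]
    exact Finset.mem_image_of_mem _ (Finset.mem_univ j)
  choose p hp using hp
  have hpinj : Function.Injective p := by
    intro i j hij
    apply hwinj
    rw [← hp i, ← hp j, hij]
  set π : Equiv.Perm (Fin 5) := Equiv.ofBijective p (Finite.injective_iff_bijective.mp hpinj)
    with hπ
  have hcol : ∀ j, col (g0 * Pm π) j = w j := by
    intro j
    rw [col_mul_Pm]
    exact hp j
  have hg : g0 * Pm π ∈ Gam := Gam.mul_mem hg0 (Pm_mem π)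
  have hsegs : ∀ k ≤ 5, s k = segC (g0 * Pm π) hg k := by
    intro k hk
    apply Subtype.ext
    rw [hseg k hk]
    change _ = seg (g0 * Pm π) k
    unfold seg
    congr 1
    funext j
    exact (hcol j).symm
  refine ⟨g0 * Pm π, hg, ?_⟩
  ext a
  induction a using WithTop.recTopCoe with
  | top =>
    simp only [Set.mem_ofPred_eq, true_or, iff_true]
    exact Φ.top_mem
  | coe σ =>
    simp only [Set.mem_ofPred_eq, WithTop.coe_ne_top, false_or]
    constructor
    · intro hσ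
      have hσ' : σ ∈ c := hσ
      refine ⟨σ.1.card, σ.card_le, ?_⟩
      rw [← hsegs _ σ.card_le]
      congr 1
      apply Subtype.ext
      have e1 := hs2 σ.1.card σ.card_le
      have h1 := hsub σ hσ' (s σ.1.card) (hs1 _ σ.card_le) (by rw [e1])
      exact Finset.eq_of_subset_of_card_le h1 (by rw [e1])
    · rintro ⟨k, hk, hσ⟩
      rw [hσ, ← hsegs k hk]
      exact hs1 k hk

theorem im_seg (g h : UU) (k : ℕ) : im g (seg h k) = seg (g * h) k := by
  unfold im seg
  rw [Finset.image_image]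
  congr 1
  funext j
  simp only [Function.comp, col]
  rw [Matrix.mulVec_mulVec, Units.val_mul]

theorem combReg : IsCombRegular T5 := by
  intro Φ Ψ
  obtain ⟨g, hg, hΦ⟩ := flag_form (Flag.map faceIso.symm Φ)
  obtain ⟨h, hh, hΨ⟩ := flag_form (Flag.map faceIso.symm Ψ)
  have hu : h * g⁻¹ ∈ Gam := Gam.mul_mem hh (Gam.inv_mem hg)
  let e' : WithTop Cx ≃o WithTop Cx := (aut (h * g⁻¹) hu).withTopCongr
  have he' : ∀ k, e' ((segC g hg k : Cx) : WithTop Cx) = ((segC h hh k : Cx) : WithTop Cx) := by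
    intro k
    change WithTop.map (aut (h * g⁻¹) hu) ((segC g hg k : Cx) : WithTop Cx) =
      ((segC h hh k : Cx) : WithTop Cx)
    rw [WithTop.map_coe]
    congr 1
    apply Subtype.ext
    rw [aut_apply]
    change im (h * g⁻¹) (seg g k) = seg h k
    rw [im_seg, inv_mul_cancel_right]
  have htop : e' ⊤ = ⊤ := map_top e'
  refine ⟨faceIso.symm.trans (e'.trans faceIso), ?_⟩
  apply Flag.ext
  rw [Flag.coe_map]
  have h1 : (faceIso.symm.trans (e'.trans faceIso)) '' (Φ : Set (FaceLattice T5)) =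
      faceIso '' (e' '' (faceIso.symm '' (Φ : Set (FaceLattice T5)))) := by
    rw [Set.image_image, Set.image_image]
    rfl
  have h2 : faceIso.symm '' (Φ : Set (FaceLattice T5)) =
      {a : WithTop Cx | a = ⊤ ∨ ∃ k ≤ 5, a = ((segC g hg k : Cx) : WithTop Cx)} := by
    rw [← hΦ]; rfl
  have h3 : (Ψ : Set (FaceLattice T5)) =
      faceIso '' {a : WithTop Cx | a = ⊤ ∨ ∃ k ≤ 5, a = ((segC h hh k : Cx) : WithTop Cx)} := by
    rw [← hΨ, Flag.coe_map, Set.image_image]
    simp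
  rw [h1, h2, h3]
  congr 1
  ext a
  constructor
  · rintro ⟨b, (rfl | ⟨k, hk, rfl⟩), rfl⟩
    · exact Or.inl htop
    · exact Or.inr ⟨k, hk, he' k⟩
  · rintro (rfl | ⟨k, hk, rfl⟩)
    · exact ⟨⊤, Or.inl rfl, htop⟩
    · exact ⟨((segC g hg k : Cx) : WithTop Cx), Or.inr ⟨k, hk, rfl⟩, he' k⟩

end Pool.Agent.Helper22
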