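import Pool.Agent.Helper22.Zphi

/-!
# The arithmetic group of the honeycomb `{3,3,3,5}`

`frm f` is the symmetric bilinear form on `S^5` with Gram matrix `1` on the diagonal and `1 + 2 f`
off the diagonal.  For `f = phi` it is Lorentzian, for the conjugate it is positive definite.
-/

namespace Pool.Agent.Helper22

open Matrix

section form

variable {S : Type*} [CommRing S]

/-- The form. -/
def frm (f : S) (x y : Fin 5 → S) : S :=
  (1 + 2 * f) * ((∑ i, x i) * (∑ i, y i)) - 2 * f * ∑ i, x i * y i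

/-- Its Gram matrix. -/
def Gm (f : S) : Matrix (Fin 5) (Fin 5) S :=
  fun i j => (1 + 2 * f) - if i = j then 2 * f else 0

theorem frm_eq (f : S) (x y : Fin 5 → S) : frm f x y = x ⬝ᵥ (Gm f *ᵥ y) := by
  simp only [frm, Gm, dotProduct, mulVec, Fin.sum_univ_five]
  simp
  ring

theorem frm_comm (f : S) (x y : Fin 5 → S) : frm f x y = frm f y x := by
  simp only [frm, Fin.sum_univ_five]; ring

theorem frm_add_left (f : S) (x x' y : Fin 5 → S) :
    frm f (x + x') y = frm f x y + frm f x' y := by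
  simp only [frm, Fin.sum_univ_five, Pi.add_apply]; ring

theorem frm_sub_left (f : S) (x x' y : Fin 5 → S) :
    frm f (x - x') y = frm f x y - frm f x' y := by
  simp only [frm, Fin.sum_univ_five, Pi.sub_apply]; ring

theorem frm_neg_left (f : S) (x y : Fin 5 → S) :
    frm f (-x) y = - frm f x y := by
  simp only [frm, Fin.sum_univ_five, Pi.neg_apply]; ring

theorem frm_smul_left (f c : S) (x y : Fin 5 → S) :
    frm f (c • x) y = c * frm f x y := by
  simp only [frm, Fin.sum_univ_five, Pi.smul_apply, smul_eq_mul]; ring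

theorem frm_add_right (f : S) (x y y' : Fin 5 → S) :
    frm f x (y + y') = frm f x y + frm f x y' := by
  simp only [frm, Fin.sum_univ_five, Pi.add_apply]; ring

theorem frm_sub_right (f : S) (x y y' : Fin 5 → S) :
    frm f x (y - y') = frm f x y - frm f x y' := by
  simp only [frm, Fin.sum_univ_five, Pi.sub_apply]; ring

theorem frm_neg_right (f : S) (x y : Fin 5 → S) :
    frm f x (-y) = - frm f x y := by
  simp only [frm, Fin.sum_univ_five, Pi.neg_apply]; ring

theorem frm_smul_right (f c : S) (x y : Fin 5 → S) :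
    frm f x (c • y) = c * frm f x y := by
  simp only [frm, Fin.sum_univ_five, Pi.smul_apply, smul_eq_mul]; ring

/-- Pairing with the all-one vector. -/
theorem frm_one_left (f : S) (x : Fin 5 → S) :
    frm f (fun _ => 1) x = (5 + 8 * f) * ∑ i, x i := by
  simp only [frm, Fin.sum_univ_five]; ring

theorem frm_isom {f : S} {g : Matrix (Fin 5) (Fin 5) S} (h : gᵀ * Gm f * g = Gm f)
    (x y : Fin 5 → S) : frm f (g *ᵥ x) (g *ᵥ y) = frm f x y := by
  rw [frm_eq, frm_eq]
  conv_rhs => rw [← h]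
  rw [← Matrix.mulVec_mulVec, ← Matrix.mulVec_mulVec, Matrix.dotProduct_mulVec x gᵀ,
    Matrix.vecMul_transpose]

theorem frm_single (f : S) (i : Fin 5) (v : Fin 5 → S) :
    frm f (Pi.single i 1) v = (1 + 2 * f) * (∑ i, v i) - 2 * f * v i := by
  simp [frm, Pi.single_apply]

end form

/-- The sum of coordinates. -/
def sm {S : Type*} [AddCommMonoid S] (x : Fin 5 → S) : S := ∑ i, x i

/-- Future timelike vectors. -/
def Fut (X : Fin 5 → ℝ) : Prop := 0 < frm ph X X ∧ 0 < sm X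

theorem frm_self_nonpos {Z : Fin 5 → ℝ} (h : sm Z = 0) : frm ph Z Z ≤ 0 := by
  unfold sm at h
  unfold frm
  rw [h]
  have h1 : 0 ≤ ∑ i, Z i * Z i := Finset.sum_nonneg (fun i _ => mul_self_nonneg _)
  have := ph_pos
  nlinarith

/-- The reversed Cauchy-Schwarz inequality, in additive form. -/
theorem rcs {X Y : Fin 5 → ℝ} (hY : 0 < sm Y) :
    frm ph X X + (sm X / sm Y) ^ 2 * frm ph Y Y ≤ 2 * (sm X / sm Y) * frm ph X Y := by
  set t := sm X / sm Y with ht
  have h0 : sm (X - t • Y) = 0 := by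
    have : sm (X - t • Y) = sm X - t * sm Y := by
      simp only [sm, Fin.sum_univ_five, Pi.sub_apply, Pi.smul_apply, smul_eq_mul]; ring
    rw [this, ht]
    field_simp
    ring
  have h1 := frm_self_nonpos h0
  rw [frm_sub_left, frm_sub_right, frm_sub_right, frm_smul_left, frm_smul_left, frm_smul_right,
    frm_smul_right, frm_comm ph Y X] at h1
  nlinarith

theorem frm_pos {X Y : Fin 5 → ℝ} (hX : Fut X) (hY : Fut Y) : 0 < frm ph X Y := by
  have h := rcs (X := X) hY.2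
  have ht : 0 < sm X / sm Y := div_pos hX.2 hY.2
  have h1 : 0 ≤ (sm X / sm Y) ^ 2 * frm ph Y Y := by
    have := hY.1
    positivity
  have h2 : 0 < 2 * (sm X / sm Y) * frm ph X Y := by
    have := hX.1
    linarith
  exact (mul_pos_iff_of_pos_left (by positivity)).mp h2

theorem sign_fut {X Y : Fin 5 → ℝ} (hX : 0 < frm ph X X) (hY : Fut Y) (h : 0 < frm ph X Y) :
    Fut X := by
  refine ⟨hX, ?_⟩
  by_contra hc
  push Not at hc
  rcases hc.lt_or_eq with h1 | h1
  · have h2 : Fut (-X) := by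
      refine ⟨by rw [frm_neg_left, frm_neg_right]; linarith, ?_⟩
      have : sm (-X) = - sm X := by
        simp only [sm, Fin.sum_univ_five, Pi.neg_apply]; ring
      rw [this]; linarith
    have h3 := frm_pos h2 hY
    rw [frm_neg_left] at h3
    linarith
  · have := frm_self_nonpos h1
    linarith

/-- The action of an integral matrix on real vectors. -/
noncomputable def act (g : Matrix (Fin 5) (Fin 5) ZP) (X : Fin 5 → ℝ) : Fin 5 → ℝ :=
  (g.map ev) *ᵥ X

theorem act_mul (g h : Matrix (Fin 5) (Fin 5) ZP) (X : Fin 5 → ℝ) :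
    act (g * h) X = act g (act h X) := by
  unfold act
  rw [Matrix.map_mul, Matrix.mulVec_mulVec]

theorem act_one (X : Fin 5 → ℝ) : act 1 X = X := by
  unfold act
  rw [Matrix.map_one _ (map_zero ev) (map_one ev), Matrix.one_mulVec]

theorem act_add (g : Matrix (Fin 5) (Fin 5) ZP) (X Y : Fin 5 → ℝ) :
    act g (X + Y) = act g X + act g Y := by
  unfold act; rw [Matrix.mulVec_add]

theorem act_sub (g : Matrix (Fin 5) (Fin 5) ZP) (X Y : Fin 5 → ℝ) :
    act g (X - Y) = act g X - act g Y := by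
  unfold act; rw [Matrix.mulVec_sub]

theorem act_smul (g : Matrix (Fin 5) (Fin 5) ZP) (c : ℝ) (X : Fin 5 → ℝ) :
    act g (c • X) = c • act g X := by
  unfold act; rw [Matrix.mulVec_smul]

/-- Evaluate an integral vector. -/
noncomputable def evv (v : Fin 5 → ZP) : Fin 5 → ℝ := fun i => ev (v i)

/-- Evaluate an integral vector at the conjugate place. -/
noncomputable def evcv (v : Fin 5 → ZP) : Fin 5 → ℝ := fun i => evc (v i)

theorem evv_mulVec (g : Matrix (Fin 5) (Fin 5) ZP) (v : Fin 5 → ZP) :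
    evv (g *ᵥ v) = act g (evv v) := by
  funext i
  unfold evv act
  simp only [Matrix.mulVec, dotProduct, Fin.sum_univ_five, map_add, map_mul, Matrix.map_apply]

/-- `phi` as an element of `Z[phi]`. -/
def om : ZP := ⟨0, 1⟩

theorem ev_om : ev om = ph := by simp [ev_apply, om]
theorem evc_om : evc om = 1 - ph := by simp [evc_apply, om]

theorem ev_frm (x y : Fin 5 → ZP) : ev (frm om x y) = frm ph (evv x) (evv y) := by
  simp only [frm, Fin.sum_univ_five, map_sub, map_add, map_mul, map_one, map_ofNat, ev_om, evv]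

theorem evc_frm (x y : Fin 5 → ZP) :
    evc (frm om x y) = frm (1 - ph) (evcv x) (evcv y) := by
  simp only [frm, Fin.sum_univ_five, map_sub, map_add, map_mul, map_one, map_ofNat, evc_om, evcv]

theorem ev_sm (x : Fin 5 → ZP) : ev (sm x) = sm (evv x) := by
  simp only [sm, Fin.sum_univ_five, map_add, evv]

theorem act_isom {g : Matrix (Fin 5) (Fin 5) ZP} (h : gᵀ * Gm om * g = Gm om)
    (X Y : Fin 5 → ℝ) : frm ph (act g X) (act g Y) = frm ph X Y := by
  unfold act
  apply frm_isom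
  have h1 : (Gm om).map ev = Gm ph := by
    ext i j
    have h2 : ev 2 = 2 := map_ofNat ev 2
    simp only [Gm, Matrix.map_apply, map_sub, map_add, map_mul, map_one, h2, ev_om]
    split_ifs <;> simp [ev_om, h2]
  rw [← h1, ← Matrix.transpose_map, ← Matrix.map_mul, ← Matrix.map_mul, h]

/-- The group of integral isometries preserving the future cone. -/
def Gam : Subgroup (Matrix (Fin 5) (Fin 5) ZP)ˣ where
  carrier := {g | ((g : Matrix (Fin 5) (Fin 5) ZP)ᵀ * Gm om * g = Gm om) ∧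
    ∀ X, Fut X → Fut (act g X) ∧ Fut (act (g⁻¹ : (Matrix (Fin 5) (Fin 5) ZP)ˣ) X)}
  mul_mem' := by
    rintro g h ⟨hg1, hg2⟩ ⟨hh1, hh2⟩
    refine ⟨?_, ?_⟩
    · rw [Units.val_mul, Matrix.transpose_mul]
      calc _ = (h : Matrix (Fin 5) (Fin 5) ZP)ᵀ * ((g : Matrix (Fin 5) (Fin 5) ZP)ᵀ * Gm om * g)
            * h := by noncomm_ring
        _ = _ := by rw [hg1, hh1]
    · intro X hX
      rw [_root_.mul_inv_rev, Units.val_mul, Units.val_mul, act_mul, act_mul]
      exact ⟨(hg2 _ (hh2 X hX).1).1, (hh2 _ (hg2 X hX).2).2⟩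
  one_mem' := by
    refine ⟨by simp, ?_⟩
    intro X hX
    rw [inv_one, Units.val_one, act_one]
    exact ⟨hX, hX⟩
  inv_mem' := by
    rintro g ⟨hg1, hg2⟩
    refine ⟨?_, ?_⟩
    · have h1 : (g : Matrix (Fin 5) (Fin 5) ZP) * ((g⁻¹ : (Matrix (Fin 5) (Fin 5) ZP)ˣ) :
          Matrix (Fin 5) (Fin 5) ZP) = 1 := Units.mul_inv g
      have h2 : (((g⁻¹ : (Matrix (Fin 5) (Fin 5) ZP)ˣ) :
          Matrix (Fin 5) (Fin 5) ZP))ᵀ * (g : Matrix (Fin 5) (Fin 5) ZP)ᵀ = 1 := by
        rw [← Matrix.transpose_mul, h1, Matrix.transpose_one]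
      conv_lhs => rw [← hg1]
      calc _ = ((((g⁻¹ : (Matrix (Fin 5) (Fin 5) ZP)ˣ) :
          Matrix (Fin 5) (Fin 5) ZP))ᵀ * (g : Matrix (Fin 5) (Fin 5) ZP)ᵀ) * Gm om *
          ((g : Matrix (Fin 5) (Fin 5) ZP) * ((g⁻¹ : (Matrix (Fin 5) (Fin 5) ZP)ˣ) :
          Matrix (Fin 5) (Fin 5) ZP)) := by noncomm_ring
        _ = Gm om := by rw [h1, h2]; simp
    · intro X hX
      rw [inv_inv]
      exact ⟨(hg2 X hX).2, (hg2 X hX).1⟩

theorem Gam.isom {g : (Matrix (Fin 5) (Fin 5) ZP)ˣ} (hg : g ∈ Gam) (X Y : Fin 5 → ℝ) :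
    frm ph (act g X) (act g Y) = frm ph X Y := act_isom hg.1 X Y

theorem Gam.isomR {g : (Matrix (Fin 5) (Fin 5) ZP)ˣ} (hg : g ∈ Gam) (x y : Fin 5 → ZP) :
    frm om ((g : Matrix (Fin 5) (Fin 5) ZP) *ᵥ x) ((g : Matrix (Fin 5) (Fin 5) ZP) *ᵥ y) =
      frm om x y := frm_isom hg.1 x y

theorem Gam.fut {g : (Matrix (Fin 5) (Fin 5) ZP)ˣ} (hg : g ∈ Gam) {X : Fin 5 → ℝ} (hX : Fut X) :
    Fut (act g X) := (hg.2 X hX).1

theorem act_inv_act (g : (Matrix (Fin 5) (Fin 5) ZP)ˣ) (X : Fin 5 → ℝ) :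
    act (g⁻¹ : (Matrix (Fin 5) (Fin 5) ZP)ˣ) (act g X) = X := by
  rw [← act_mul, Units.inv_mul, act_one]

theorem act_act_inv (g : (Matrix (Fin 5) (Fin 5) ZP)ˣ) (X : Fin 5 → ℝ) :
    act g (act (g⁻¹ : (Matrix (Fin 5) (Fin 5) ZP)ˣ) X) = X := by
  rw [← act_mul, Units.mul_inv, act_one]

/-- Criterion for membership. -/
theorem mem_Gam_of {g : (Matrix (Fin 5) (Fin 5) ZP)ˣ}
    (h : (g : Matrix (Fin 5) (Fin 5) ZP)ᵀ * Gm om * g = Gm om) {X0 : Fin 5 → ℝ} (h0 : Fut X0)
    (h1 : Fut (act g X0)) : g ∈ Gam := by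
  refine ⟨h, ?_⟩
  intro X hX
  have hi := act_isom h
  constructor
  · refine sign_fut ?_ h1 ?_
    · rw [hi]; exact hX.1
    · rw [hi]; exact frm_pos hX h0
  · refine sign_fut ?_ h0 ?_
    · rw [← hi, act_act_inv]; exact hX.1
    · rw [← hi, act_act_inv]; exact frm_pos hX h1

/-- The integral points on the hyperboloid. -/
def VV : Set (Fin 5 → ZP) := {v | frm om v v = 1 ∧ 0 < ev (sm v)}

theorem VV.fut {v : Fin 5 → ZP} (hv : v ∈ VV) : Fut (evv v) := by
  refine ⟨?_, ?_⟩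
  · rw [← ev_frm, hv.1, map_one]; norm_num
  · rw [← ev_sm]; exact hv.2

theorem single_mem_VV (i : Fin 5) : Pi.single i 1 ∈ VV := by
  refine ⟨?_, ?_⟩
  · rw [frm_single]; simp
  · simp [sm]

theorem Gam.mem_VV {g : (Matrix (Fin 5) (Fin 5) ZP)ˣ} (hg : g ∈ Gam) {v : Fin 5 → ZP}
    (hv : v ∈ VV) : (g : Matrix (Fin 5) (Fin 5) ZP) *ᵥ v ∈ VV := by
  refine ⟨?_, ?_⟩
  · rw [Gam.isomR hg, hv.1]
  · have := Gam.fut hg (VV.fut hv)
    rw [ev_sm, evv_mulVec]
    exact this.2

end Pool.Agent.Helper22
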