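import Pool.Agent.Helper22.Hyp5

/-!
# Gap lemma, reflections, finiteness
-/

namespace Pool.Agent.Helper22

open Matrix

/-- A sum `s` of coordinates of a point of `VV` is `1` mod `2`. -/
theorem parity_sm {v : Fin 5 → ZP} (hv : v ∈ VV) : Odd (sm v).re ∧ Even (sm v).im := by
  have h := hv.1
  have hs : ∑ i, v i = sm v := rfl
  unfold frm at h
  rw [hs] at h
  generalize sm v = s at h ⊢
  generalize (∑ i, v i * v i) = t at h
  have h1 := congrArg QuadraticAlgebra.re h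
  have h2 := congrArg QuadraticAlgebra.im h
  have e1 : (1 + 2 * om : ZP) = ⟨1, 2⟩ := by
    ext <;> rfl
  have e2 : (2 * om : ZP) = ⟨0, 2⟩ := by
    ext <;> rfl
  rw [e1, e2] at h1 h2
  simp only [QuadraticAlgebra.re_sub, QuadraticAlgebra.im_sub, QuadraticAlgebra.re_mul,
    QuadraticAlgebra.im_mul, QuadraticAlgebra.re_one, QuadraticAlgebra.im_one] at h1 h2
  obtain ⟨p, q⟩ := s
  obtain ⟨c, d⟩ := t
  simp only at h1 h2 ⊢
  rcases Int.even_or_odd' p with ⟨k, rfl | rfl⟩ <;> rcases Int.even_or_odd' q with ⟨l, rfl | rfl⟩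
  · exfalso
    ring_nf at h1 h2
    omega
  · exfalso
    ring_nf at h1 h2
    omega
  · exact ⟨⟨k, rfl⟩, ⟨l, by ring⟩⟩
  · exfalso
    ring_nf at h1 h2
    omega

theorem parity_frm {u v : Fin 5 → ZP} (hu : u ∈ VV) (hv : v ∈ VV) :
    Odd (frm om u v).re ∧ Even (frm om u v).im := by
  obtain ⟨⟨k, hk⟩, ⟨l, hl⟩⟩ := parity_sm hu
  obtain ⟨⟨k', hk'⟩, ⟨l', hl'⟩⟩ := parity_sm hv
  have hsu : ∑ i, u i = sm u := rfl
  have hsv : ∑ i, v i = sm v := rfl
  unfold frm
  rw [hsu, hsv]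
  generalize sm u = s at *
  generalize sm v = s' at *
  generalize (∑ i, u i * v i) = t
  have e1 : (1 + 2 * om : ZP) = ⟨1, 2⟩ := by
    ext <;> rfl
  have e2 : (2 * om : ZP) = ⟨0, 2⟩ := by
    ext <;> rfl
  rw [e1, e2]
  simp only [QuadraticAlgebra.re_sub, QuadraticAlgebra.im_sub, QuadraticAlgebra.re_mul,
    QuadraticAlgebra.im_mul]
  obtain ⟨p, q⟩ := s
  obtain ⟨p', q'⟩ := s'
  obtain ⟨c, d⟩ := t
  simp only at hk hl hk' hl' ⊢
  subst hk hl hk' hl'
  constructor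
  · rw [Int.odd_iff]; ring_nf; omega
  · rw [Int.even_iff]; ring_nf; omega

/-- The conjugate form is positive definite. -/
theorem conj_pos (X : Fin 5 → ℝ) : 0.05 * ∑ i, X i * X i ≤ frm (1 - ph) X X := by
  have hl := ph_lo
  have hh := ph_hi
  unfold frm
  have h1 : (∑ i, X i) * (∑ i, X i) ≤ 5 * ∑ i, X i * X i := by
    simp only [Fin.sum_univ_five]
    nlinarith [sq_nonneg (X 0 - X 1), sq_nonneg (X 0 - X 2), sq_nonneg (X 0 - X 3),
      sq_nonneg (X 0 - X 4), sq_nonneg (X 1 - X 2), sq_nonneg (X 1 - X 3), sq_nonneg (X 1 - X 4),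
      sq_nonneg (X 2 - X 3), sq_nonneg (X 2 - X 4), sq_nonneg (X 3 - X 4)]
  have h2 : 0 ≤ (∑ i, X i) * (∑ i, X i) := mul_self_nonneg _
  have h3 : 0 ≤ ∑ i, X i * X i := Finset.sum_nonneg (fun i _ => mul_self_nonneg _)
  generalize (∑ i, X i) * (∑ i, X i) = p at *
  generalize ∑ i, X i * X i = q at *
  have h4 : (2 * ph - 3) * p ≤ (2 * ph - 3) * (5 * q) :=
    mul_le_mul_of_nonneg_left h1 (by linarith)
  have h5 : 0.05 * q ≤ (13 - 8 * ph) * q := mul_le_mul_of_nonneg_right (by linarith) h3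
  linarith

theorem conj_abs {u v : Fin 5 → ZP} (hu : u ∈ VV) (hv : v ∈ VV) :
    |evc (frm om u v)| ≤ 1 := by
  have hq : ∀ X : Fin 5 → ℝ, 0 ≤ frm (1 - ph) X X := by
    intro X
    have h3 : 0 ≤ ∑ i, X i * X i := Finset.sum_nonneg (fun i _ => mul_self_nonneg _)
    have := conj_pos X
    linarith
  have h1 := hq (evcv u - evcv v)
  have h2 := hq (evcv u + evcv v)
  have e1 : frm (1 - ph) (evcv u) (evcv u) = 1 := by rw [← evc_frm, hu.1, map_one]
  have e2 : frm (1 - ph) (evcv v) (evcv v) = 1 := by rw [← evc_frm, hv.1, map_one]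
  rw [frm_sub_left, frm_sub_right, frm_sub_right, frm_comm (1 - ph) (evcv v) (evcv u), e1, e2]
    at h1
  rw [frm_add_left, frm_add_right, frm_add_right, frm_comm (1 - ph) (evcv v) (evcv u), e1, e2]
    at h2
  rw [evc_frm, abs_le]
  constructor <;> linarith

theorem frm_gap {u v : Fin 5 → ZP} (hu : u ∈ VV) (hv : v ∈ VV) :
    frm om u v = 1 ∨ 1 + 2 * ph ≤ ev (frm om u v) := by
  obtain ⟨h1, h2⟩ := parity_frm hu hv
  refine gap h1 h2 ?_ (conj_abs hu hv)
  rw [ev_frm]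
  exact frm_pos (VV.fut hu) (VV.fut hv)

theorem eq_of_frm_eq_one {u v : Fin 5 → ZP} (hu : u ∈ VV) (hv : v ∈ VV)
    (h : frm om u v = 1) : u = v := by
  have e1 : frm (1 - ph) (evcv u) (evcv u) = 1 := by rw [← evc_frm, hu.1, map_one]
  have e2 : frm (1 - ph) (evcv v) (evcv v) = 1 := by rw [← evc_frm, hv.1, map_one]
  have e3 : frm (1 - ph) (evcv u) (evcv v) = 1 := by rw [← evc_frm, h, map_one]
  have h1 := conj_pos (evcv u - evcv v)
  rw [frm_sub_left, frm_sub_right, frm_sub_right, frm_comm (1 - ph) (evcv v) (evcv u), e1, e2, e3]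
    at h1
  have h2 : ∑ i, (evcv u - evcv v) i * (evcv u - evcv v) i = 0 := by
    apply le_antisymm
    · linarith
    · exact Finset.sum_nonneg (fun i _ => mul_self_nonneg _)
  rw [Finset.sum_eq_zero_iff_of_nonneg (fun i _ => mul_self_nonneg _)] at h2
  funext i
  have h3 := h2 i (Finset.mem_univ i)
  have h4 : (evcv u - evcv v) i = 0 := mul_self_eq_zero.mp h3
  apply evc_injective
  simp only [evcv, Pi.sub_apply] at h4
  linarith

/-- A point of `VV` is a basis vector or has coordinate sum greater than one. -/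
theorem basis_or {v : Fin 5 → ZP} (hv : v ∈ VV) :
    (∃ i, v = Pi.single i 1) ∨ 1 < sm (evv v) := by
  by_cases h : ∃ i, frm om (Pi.single i 1) v = 1
  · obtain ⟨i, hi⟩ := h
    exact Or.inl ⟨i, (eq_of_frm_eq_one (single_mem_VV i) hv hi).symm⟩
  · right
    push Not at h
    have h1 : ∀ i, 1 + 2 * ph ≤ ev (frm om (Pi.single i 1) v) := fun i =>
      (frm_gap (single_mem_VV i) hv).resolve_left (h i)
    have h2 : ∀ i, ev (frm om (Pi.single i 1) v) =
        (1 + 2 * ph) * sm (evv v) - 2 * ph * evv v i := by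
      intro i
      rw [frm_single, map_sub, map_mul, map_mul, map_mul, map_add, map_mul, map_one, map_ofNat,
        ev_om]
      rw [show ev (∑ i, v i) = sm (evv v) from ev_sm v]
      rfl
    have h3 : ∀ i, 1 + 2 * ph ≤ (1 + 2 * ph) * sm (evv v) - 2 * ph * evv v i := fun i =>
      (h2 i) ▸ (h1 i)
    have h4 : sm (evv v) = evv v 0 + evv v 1 + evv v 2 + evv v 3 + evv v 4 := by
      simp only [sm, Fin.sum_univ_five]
    have a0 := h3 0
    have a1 := h3 1
    have a2 := h3 2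
    have a3 := h3 3
    have a4 := h3 4
    have hl := ph_lo
    have h5 : 5 * (1 + 2 * ph) ≤ (5 + 8 * ph) * sm (evv v) := by
      have : (5 + 8 * ph) * sm (evv v) = 5 * (1 + 2 * ph) * sm (evv v) - 2 * ph *
        (evv v 0 + evv v 1 + evv v 2 + evv v 3 + evv v 4) := by rw [← h4]; ring
      rw [this]
      linarith
    by_contra hc
    push Not at hc
    nlinarith

theorem one_le_sm {v : Fin 5 → ZP} (hv : v ∈ VV) : 1 ≤ sm (evv v) := by
  rcases basis_or hv with ⟨i, rfl⟩ | h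
  · rw [← ev_sm]; simp [sm]
  · exact h.le

/-- The reflection in the facet opposite to the `i`-th vertex of the base simplex. -/
def Rfm (i : Fin 5) : Matrix (Fin 5) (Fin 5) ZP :=
  fun k j => if j = i then (if k = i then -1 else om - 1) else (if k = j then 1 else 0)

theorem Rfm_sq (i : Fin 5) : Rfm i * Rfm i = 1 := by
  revert i
  decide +kernel

theorem Rfm_isom (i : Fin 5) : (Rfm i)ᵀ * Gm om * Rfm i = Gm om := by
  revert i
  decide +kernel

/-- The reflection as a unit. -/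
def Rf (i : Fin 5) : (Matrix (Fin 5) (Fin 5) ZP)ˣ := ⟨Rfm i, Rfm i, Rfm_sq i, Rfm_sq i⟩

theorem act_Rf (i : Fin 5) (X : Fin 5 → ℝ) : sm (act (Rf i) X) = sm X + X i * (4 * ph - 6) := by
  have h0 : ev 0 = 0 := map_zero ev
  have h1 : ev 1 = 1 := map_one ev
  have hm : ev (-1) = -1 := by rw [map_neg, h1]
  have ho : ev (om - 1) = ph - 1 := by rw [map_sub, ev_om, h1]
  simp only [sm, act, Rf, Rfm, Matrix.mulVec, dotProduct, Fin.sum_univ_five, Matrix.map_apply]
  fin_cases i <;> simp [ho] <;> ring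

theorem Rf_mem (i : Fin 5) : Rf i ∈ Gam := by
  obtain ⟨j, hj⟩ : ∃ j : Fin 5, j ≠ i := exists_ne i
  refine mem_Gam_of (X0 := evv (Pi.single j 1)) (Rfm_isom i) (VV.fut (single_mem_VV j)) ?_
  have : act (Rf i) (evv (Pi.single j 1)) = evv (Pi.single j 1) := by
    rw [← evv_mulVec]
    congr 1
    rw [Matrix.mulVec_single_one]
    ext k : 1
    simp only [Rf, Rfm, Matrix.col_apply, Pi.single_apply]
    simp [hj]
  rw [this]
  exact VV.fut (single_mem_VV j)

theorem Rf_inv (i : Fin 5) : (Rf i)⁻¹ = Rf i := rfl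

/-- If `g` minimises `s(g⁻¹ X)` over the group, then the coordinates `g⁻¹ X` are nonnegative. -/
theorem nonneg_of_min {g : (Matrix (Fin 5) (Fin 5) ZP)ˣ} (hg : g ∈ Gam) (X : Fin 5 → ℝ)
    (hmin : ∀ h ∈ Gam, sm (act (g⁻¹ : (Matrix (Fin 5) (Fin 5) ZP)ˣ) X) ≤
      sm (act (h⁻¹ : (Matrix (Fin 5) (Fin 5) ZP)ˣ) X)) (i : Fin 5) :
    0 ≤ act (g⁻¹ : (Matrix (Fin 5) (Fin 5) ZP)ˣ) X i := by
  have h1 := hmin (g * Rf i) (Gam.mul_mem hg (Rf_mem i))
  rw [_root_.mul_inv_rev, Rf_inv, Units.val_mul, act_mul, act_Rf] at h1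
  have hl := ph_lo
  by_contra hc
  push Not at hc
  nlinarith

/-- The all-one vector. -/
def ones : Fin 5 → ℝ := fun _ => 1

theorem ones_fut : Fut ones := by
  refine ⟨?_, ?_⟩
  · have := frm_one_left ph ones
    have hp := ph_pos
    change 0 < frm ph (fun _ => 1) ones
    rw [this]
    simp [ones]
    positivity
  · simp [sm, ones]

/-- Pairing of a point of `VV` with a far away vector bounds the point. -/
theorem sm_bound {v : Fin 5 → ℝ} (hv : Fut v) {X : Fin 5 → ℝ} (hX : 0 < sm X)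
    (hXX : 1 ≤ frm ph X X) : sm v ≤ 2 * sm X * frm ph v X := by
  have h := rcs (X := v) hX
  have ht : 0 < sm v / sm X := div_pos hv.2 hX
  set t := sm v / sm X with htdef
  have h0 := hv.1
  have h1 : t ^ 2 ≤ 2 * t * frm ph v X := by nlinarith
  have h2 : t ≤ 2 * frm ph v X := by
    by_contra hc
    push Not at hc
    nlinarith
  have h3 : sm v = t * sm X := by rw [htdef]; field_simp
  rw [h3]
  nlinarith

theorem coord_bound {v : Fin 5 → ℝ} (h : frm ph v v = 1) (hs : 0 < sm v) (i : Fin 5) :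
    |v i| ≤ 2 * sm v := by
  have hl := ph_lo
  have h1 : 2 * ph * ∑ i, v i * v i ≤ (1 + 2 * ph) * (sm v * sm v) := by
    unfold frm at h
    have : (∑ i, v i) = sm v := rfl
    rw [this] at h
    linarith
  have h2 : v i * v i ≤ ∑ i, v i * v i :=
    Finset.single_le_sum (f := fun i => v i * v i) (fun i _ => mul_self_nonneg _)
      (Finset.mem_univ i)
  have h3 : v i ^ 2 ≤ (2 * sm v) ^ 2 := by
    have h4 : 0 ≤ sm v * sm v := mul_self_nonneg _
    nlinarith
  exact abs_le_of_sq_le_sq h3 (by linarith)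

theorem conj_coord_bound {v : Fin 5 → ZP} (hv : v ∈ VV) (i : Fin 5) : |evc (v i)| ≤ 5 := by
  have e1 : frm (1 - ph) (evcv v) (evcv v) = 1 := by rw [← evc_frm, hv.1, map_one]
  have h1 := conj_pos (evcv v)
  have h2 : evcv v i * evcv v i ≤ ∑ i, evcv v i * evcv v i :=
    Finset.single_le_sum (f := fun i => evcv v i * evcv v i) (fun i _ => mul_self_nonneg _)
      (Finset.mem_univ i)
  have h3 : (evcv v i) ^ 2 ≤ 5 ^ 2 := by nlinarith
  exact abs_le_of_sq_le_sq h3 (by norm_num)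

/-- Coordinates with respect to a frame, summed, equal a pairing. -/
theorem sum_pair {g : (Matrix (Fin 5) (Fin 5) ZP)ˣ} (hg : g ∈ Gam) (X : Fin 5 → ℝ) :
    (5 + 8 * ph) * sm (act (g⁻¹ : (Matrix (Fin 5) (Fin 5) ZP)ˣ) X) =
      ∑ j, frm ph (evv ((g : Matrix (Fin 5) (Fin 5) ZP) *ᵥ Pi.single j 1)) X := by
  have h1 := frm_one_left ph (act (g⁻¹ : (Matrix (Fin 5) (Fin 5) ZP)ˣ) X)
  unfold sm
  rw [← h1, ← Gam.isom hg, act_act_inv]
  have h2 : act g (fun _ => 1) = ∑ j, evv ((g : Matrix (Fin 5) (Fin 5) ZP) *ᵥ Pi.single j 1) := by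
    simp only [evv_mulVec, Fin.sum_univ_five, ← act_add]
    congr 1
    funext i
    fin_cases i <;> simp [evv]
  rw [h2]
  simp only [Fin.sum_univ_five, frm_add_left]

/-- Finiteness of the set of frames near a bounded part of the future cone. -/
theorem finite_near (B : ℝ) : {g : (Matrix (Fin 5) (Fin 5) ZP)ˣ | g ∈ Gam ∧ ∃ X, Fut X ∧
    1 ≤ frm ph X X ∧ sm X ≤ B ∧ sm (act (g⁻¹ : (Matrix (Fin 5) (Fin 5) ZP)ˣ) X) ≤ B}.Finite := by
  set C : ℝ := 2 * (2 * |B| * ((5 + 8 * ph) * |B|)) + 5 with hC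
  have hfin : {m : Matrix (Fin 5) (Fin 5) ZP | ∀ i j, m i j ∈
      {z : ZP | |ev z| ≤ C ∧ |evc z| ≤ C}}.Finite := by
    have := Set.Finite.pi' (fun i : Fin 5 => Set.Finite.pi' (fun j : Fin 5 => finite_bdd C))
    exact this
  refine (hfin.preimage (Units.val_injective.injOn)).subset ?_
  rintro g ⟨hg, X, hX, h1, h2, h3⟩
  rw [Set.mem_preimage, Set.mem_ofPred_eq]
  intro i j
  have hB0 : 0 < sm X := hX.2
  have hB : |B| = B := abs_of_nonneg (by linarith)
  have hcol : (g : Matrix (Fin 5) (Fin 5) ZP) *ᵥ Pi.single j 1 ∈ VV :=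
    Gam.mem_VV hg (single_mem_VV j)
  have hent : (g : Matrix (Fin 5) (Fin 5) ZP) i j =
      ((g : Matrix (Fin 5) (Fin 5) ZP) *ᵥ Pi.single j 1) i := by
    rw [Matrix.mulVec_single_one]; rfl
  have hp := ph_pos
  have hsum := sum_pair hg X
  have hle : frm ph (evv ((g : Matrix (Fin 5) (Fin 5) ZP) *ᵥ Pi.single j 1)) X ≤
      (5 + 8 * ph) * B := by
    calc _ ≤ ∑ j, frm ph (evv ((g : Matrix (Fin 5) (Fin 5) ZP) *ᵥ Pi.single j 1)) X :=
          Finset.single_le_sum
            (f := fun j => frm ph (evv ((g : Matrix (Fin 5) (Fin 5) ZP) *ᵥ Pi.single j 1)) X)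
            (fun k _ => (frm_pos (VV.fut (Gam.mem_VV hg (single_mem_VV k))) hX).le)
            (Finset.mem_univ j)
      _ = (5 + 8 * ph) * sm (act (g⁻¹ : (Matrix (Fin 5) (Fin 5) ZP)ˣ) X) := hsum.symm
      _ ≤ (5 + 8 * ph) * B := by
          apply mul_le_mul_of_nonneg_left h3 (by positivity)
  have hv := VV.fut hcol
  have hpos := frm_pos hv hX
  have hs := sm_bound hv hX.2 h1
  have hs2 : sm (evv ((g : Matrix (Fin 5) (Fin 5) ZP) *ᵥ Pi.single j 1)) ≤
      2 * B * ((5 + 8 * ph) * B) := by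
    refine hs.trans ?_
    have : 0 ≤ (5 + 8 * ph) * B := by nlinarith
    nlinarith
  have hc := coord_bound (v := evv ((g : Matrix (Fin 5) (Fin 5) ZP) *ᵥ Pi.single j 1))
    (by rw [← ev_frm, hcol.1, map_one]) hv.2 i
  have hcc := conj_coord_bound hcol i
  rw [Set.mem_ofPred_eq, hent]
  constructor
  · rw [hC, hB]
    have : |ev (((g : Matrix (Fin 5) (Fin 5) ZP) *ᵥ Pi.single j 1) i)| ≤ 2 *
      sm (evv ((g : Matrix (Fin 5) (Fin 5) ZP) *ᵥ Pi.single j 1)) := hc
    linarith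
  · rw [hC]
    have : 0 ≤ 2 * (2 * |B| * ((5 + 8 * ph) * |B|)) := by positivity
    linarith

end Pool.Agent.Helper22
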