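import Pool.Agent.Helper22.TilingDefs

/-!
# Faces of polytopes
-/

namespace Pool.Agent.Helper22.RegTiling

variable {d : ℕ}

theorem isFace_self (P : Set (E d)) : IsFace P P := by
  right
  refine ⟨0, ?_⟩
  ext x
  simp

theorem isFace_empty (P : Set (E d)) : IsFace P ∅ := Or.inl rfl

theorem IsFace.subset {P F : Set (E d)} (h : IsFace P F) : F ⊆ P := by
  rcases h with rfl | ⟨l, rfl⟩
  · exact Set.empty_subset _
  · intro x hx; exact hx.1

theorem IsFace.convex {P F : Set (E d)} (hP : Convex ℝ P) (h : IsFace P F) : Convex ℝ F := by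
  rcases h with rfl | ⟨l, rfl⟩
  · exact convex_empty
  · rintro x ⟨hx, hx'⟩ y ⟨hy, hy'⟩ a b ha hb hab
    refine ⟨hP hx hy ha hb hab, ?_⟩
    intro z hz
    rw [map_add, map_smul, map_smul, smul_eq_mul, smul_eq_mul]
    have h1 := hx' z hz
    have h2 := hy' z hz
    have : l z = a * l z + b * l z := by rw [← add_mul, hab, one_mul]
    rw [this]
    exact add_le_add (mul_le_mul_of_nonneg_left h1 ha) (mul_le_mul_of_nonneg_left h2 hb)

/-- A face of a polytope is the convex hull of the generators it contains. -/
theorem IsFace.eq_hull {S F : Set (E d)} (hS : S.Finite) (h : IsFace (convexHull ℝ S) F) :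
    F = convexHull ℝ (S ∩ F) := by
  classical
  have hconv := h.convex (convex_convexHull ℝ S)
  apply Set.Subset.antisymm
  · rcases h with rfl | ⟨l, rfl⟩
    · exact Set.empty_subset _
    · rintro x ⟨hx, hx'⟩
      have hx1 := hx
      rw [← hS.coe_toFinset, Finset.mem_convexHull'] at hx
      obtain ⟨w, h1, h2, h3⟩ := hx
      have hm : ∀ s ∈ hS.toFinset, l s ≤ l x := fun s hs =>
        hx' s (subset_convexHull ℝ S (hS.mem_toFinset.mp hs))
      have h4 : ∑ s ∈ hS.toFinset, w s * (l x - l s) = 0 := by
        have e1 : l x = ∑ s ∈ hS.toFinset, w s * l s := by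
          conv_lhs => rw [← h3]
          rw [map_sum]
          apply Finset.sum_congr rfl
          intro s _
          rw [map_smul, smul_eq_mul]
        simp only [mul_sub, Finset.sum_sub_distrib]
        rw [← Finset.sum_mul, h2, one_mul, ← e1, sub_self]
      rw [Finset.sum_eq_zero_iff_of_nonneg
        (fun s hs => mul_nonneg (h1 s hs) (by linarith [hm s hs]))] at h4
      have h5 : ∀ s ∈ hS.toFinset, w s ≠ 0 → s ∈ {x | x ∈ convexHull ℝ S ∧
          ∀ y ∈ convexHull ℝ S, l y ≤ l x} := by
        intro s hs hws
        have h6 : l s = l x := by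
          have := h4 s hs
          rcases mul_eq_zero.mp this with h7 | h7
          · exact absurd h7 hws
          · linarith
        refine ⟨subset_convexHull ℝ S (hS.mem_toFinset.mp hs), ?_⟩
        intro y hy
        rw [h6]; exact hx' y hy
      have h8 : ∑ s ∈ hS.toFinset, w s • s = ∑ s ∈ hS.toFinset.filter (fun s => w s ≠ 0), w s • s := by
        rw [Finset.sum_filter]
        apply Finset.sum_congr rfl
        intro s _
        split_ifs with hc
        · rfl
        · push Not at hc
          rw [hc, zero_smul]
      have h9 : ∑ s ∈ hS.toFinset.filter (fun s => w s ≠ 0), w s = 1 := by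
        rw [← h2, Finset.sum_filter]
        apply Finset.sum_congr rfl
        intro s _
        split_ifs with hc
        · rfl
        · push Not at hc
          rw [hc]
      rw [← h3, h8]
      refine (convex_convexHull ℝ _).sum_mem (fun s hs => h1 s (Finset.mem_filter.mp hs).1) h9 ?_
      intro s hs
      rw [Finset.mem_filter] at hs
      exact subset_convexHull ℝ _ ⟨hS.mem_toFinset.mp hs.1, h5 s hs.1 hs.2⟩
  · exact convexHull_min Set.inter_subset_right hconv

end Pool.Agent.Helper22.RegTiling
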