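import Pool.Agent.Helper22.Tile5
import Pool.Agent.Helper22.PolyFace

/-!
# The tiling is LFC
-/

namespace Pool.Agent.Helper22

open Matrix RegTiling

/-- The tiling. -/
def T5 : Set (Set (E 4)) := {T | ∃ g ∈ Gam, T = hull (cols g)}

theorem sm_add (X Y : Fin 5 → ℝ) : sm (X + Y) = sm X + sm Y := by
  simp only [sm, Fin.sum_univ_five, Pi.add_apply]; ring

theorem sm_sub (X Y : Fin 5 → ℝ) : sm (X - Y) = sm X - sm Y := by
  simp only [sm, Fin.sum_univ_five, Pi.sub_apply]; ring

theorem sm_smul (t : ℝ) (Y : Fin 5 → ℝ) : sm (t • Y) = t * sm Y := by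
  simp only [sm, Fin.sum_univ_five, Pi.smul_apply, smul_eq_mul]; ring

theorem inv_ones_pos {g : UU} (hg : g ∈ Gam) : 0 < sm (act (g⁻¹ : UU) ones) :=
  (Gam.fut (Gam.inv_mem hg) ones_fut).2

/-- Every set of vertices of a tile spans a face of the tile. -/
theorem isFace_hull {g : UU} (hg : g ∈ Gam) {σ : Finset ZV} (hσ : σ ⊆ cols g) :
    IsFace (hull (cols g)) (hull σ) := by
  classical
  rcases σ.eq_empty_or_nonempty with rfl | hne
  · left; simp [hull]
  right
  set b0 : Fin 5 → ℝ := fun j => if col g j ∈ σ then 0 else 1 with hb0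
  set c : ℝ := (∑ j, b0 j * act (g⁻¹ : UU) ones j) / sm (act (g⁻¹ : UU) ones) with hc
  have hpos := inv_ones_pos hg
  -- the functional upstairs
  let Lf : (Fin 5 → ℝ) →ₗ[ℝ] ℝ :=
    { toFun := fun X => ∑ j, (c - b0 j) * act (g⁻¹ : UU) X j
      map_add' := fun X Y => by
        rw [act_add]
        simp only [Pi.add_apply, mul_add, Finset.sum_add_distrib]
      map_smul' := fun t X => by
        rw [act_smul]
        simp only [Pi.smul_apply, smul_eq_mul, RingHom.id_apply, Finset.mul_sum]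
        apply Finset.sum_congr rfl
        intro j _; ring }
  have hLf : ∀ X, Lf X = ∑ j, (c - b0 j) * act (g⁻¹ : UU) X j := fun X => rfl
  have hL0 : Lf ones = 0 := by
    rw [hLf]
    simp only [sub_mul, Finset.sum_sub_distrib]
    rw [← Finset.mul_sum]
    change c * sm (act (g⁻¹ : UU) ones) - _ = 0
    rw [hc, div_mul_cancel₀ _ hpos.ne', sub_self]
  let Ls : E 4 →ₗ[ℝ] ℝ :=
    { toFun := fun y => Lf (sec y)
      map_add' := fun y z => by
        rw [← map_add]
        congr 1
        funext i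
        refine Fin.lastCases ?_ (fun j => ?_) i
        · simp only [sec, Fin.snoc_last, Pi.add_apply, add_zero]
        · simp [sec, Fin.snoc_castSucc]
      map_smul' := fun t y => by
        rw [RingHom.id_apply, ← map_smul]
        congr 1
        funext i
        refine Fin.lastCases ?_ (fun j => ?_) i
        · simp only [sec, Fin.snoc_last, Pi.smul_apply, smul_zero]
        · simp [sec, Fin.snoc_castSucc] }
  have hLs : ∀ X, Ls (pr X) = Lf X := by
    intro X
    obtain ⟨t, ht⟩ := pr_eq (X := sec (pr X)) (Y := X) (pr_sec _)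
    change Lf (sec (pr X)) = Lf X
    rw [ht, map_add, map_smul, hL0]; simp
  have hval : ∀ x : Fin 5 → ℝ, sm x = 1 → Ls (pr (act g x)) = c - ∑ j, b0 j * x j := by
    intro x hx
    rw [hLs, hLf, act_inv_act]
    simp only [sub_mul, Finset.sum_sub_distrib]
    rw [← Finset.mul_sum]
    change c * sm x - _ = _
    rw [hx, mul_one]
  refine ⟨LinearMap.toContinuousLinearMap Ls, ?_⟩
  obtain ⟨v0, hv0⟩ := hne
  obtain ⟨j0, hj0⟩ := mem_cols.mp (hσ hv0)
  have hb0nn : ∀ j, 0 ≤ b0 j := fun j => by rw [hb0]; simp only; split_ifs <;> norm_num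
  apply Set.Subset.antisymm
  · intro y hy
    refine ⟨hull_mono hσ hy, ?_⟩
    intro z hz
    obtain ⟨x, a1, a2, a3, a4⟩ := (mem_hull hσ).mp hy
    obtain ⟨w, b1, b2, b3, b4⟩ := (mem_hull (Finset.Subset.refl _)).mp hz
    change Ls z ≤ Ls y
    rw [a4, b4, hval x a2, hval w b2]
    have h1 : ∑ j, b0 j * x j = 0 := by
      apply Finset.sum_eq_zero
      intro j _
      by_cases hj : col g j ∈ σ
      · rw [hb0]; simp [hj]
      · rw [a3 j hj]; simp
    have h2 : 0 ≤ ∑ j, b0 j * w j := Finset.sum_nonneg (fun j _ => mul_nonneg (hb0nn j) (b1 j))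
    linarith
  · rintro y ⟨hy, hy'⟩
    obtain ⟨x, a1, a2, a3, a4⟩ := (mem_hull (Finset.Subset.refl _)).mp hy
    have hP : PP v0 ∈ hull (cols g) :=
      subset_convexHull ℝ _ ⟨v0, hσ hv0, rfl⟩
    have h1 := hy' _ hP
    change Ls (PP v0) ≤ Ls y at h1
    have h2 : Ls (PP v0) = c := by
      rw [← hj0]
      unfold PP
      rw [evv_col, hval _ (by simp [sm])]
      have : ∑ j, b0 j * (Pi.single j0 1 : Fin 5 → ℝ) j = 0 := by
        apply Finset.sum_eq_zero
        intro j _
        rw [Pi.single_apply]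
        split_ifs with hj
        · rw [hj, hb0]; simp [hj0, hv0]
        · simp
      rw [this, sub_zero]
    rw [h2, a4, hval x a2] at h1
    have h3 : ∑ j, b0 j * x j = 0 :=
      le_antisymm (by linarith) (Finset.sum_nonneg (fun j _ => mul_nonneg (hb0nn j) (a1 j)))
    rw [Finset.sum_eq_zero_iff_of_nonneg (fun j _ => mul_nonneg (hb0nn j) (a1 j))] at h3
    refine (mem_hull hσ).mpr ⟨x, a1, a2, ?_, a4⟩
    intro j hj
    have h4 := h3 j (Finset.mem_univ j)
    rw [hb0] at h4
    simpa [hj] using h4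

theorem affInd {g : UU} (hg : g ∈ Gam) : AffineIndependent ℝ (fun j => PP (col g j)) := by
  rw [affineIndependent_iff]
  intro s w hw1 hw2 e he
  set x : Fin 5 → ℝ := fun j => if j ∈ s then w j else 0 with hx
  have h1 : sm x = 0 := by
    rw [← hw1, hx, sm, Finset.sum_ite_mem, Finset.univ_inter]
  have h2 : pr (act g x) = 0 := by
    rw [act_eq_sum, map_sum, ← hw2]
    have : ∀ j, pr (x j • evv (col g j)) = if j ∈ s then w j • PP (col g j) else 0 := by
      intro j
      rw [map_smul]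
      change x j • PP (col g j) = _
      rw [hx]
      simp only
      split_ifs <;> simp
    simp only [this]
    rw [Finset.sum_ite_mem, Finset.univ_inter]
  obtain ⟨c, hc⟩ := pr_eq_zero h2
  have h3 : x = c • act (g⁻¹ : UU) ones := by
    rw [← act_smul, ← hc, act_inv_act]
  have h4 : c = 0 := by
    have h5 := congrArg sm h3
    rw [sm_smul, h1] at h5
    have := inv_ones_pos hg
    rcases mul_eq_zero.mp h5.symm with h6 | h6
    · exact h6
    · linarith
  rw [h4, zero_smul] at h3
  have h5 := congrFun h3 e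
  rw [hx] at h5
  simpa [he] using h5

theorem interior_hull {g : UU} (hg : g ∈ Gam) : (interior (hull (cols g))).Nonempty := by
  unfold hull
  rw [interior_convexHull_nonempty_iff_affineSpan_eq_top]
  have h1 : PP '' (cols g : Set ZV) = Set.range (fun j => PP (col g j)) := by
    ext y
    constructor
    · rintro ⟨v, hv, rfl⟩
      obtain ⟨j, rfl⟩ := mem_cols.mp hv
      exact ⟨j, rfl⟩
    · rintro ⟨j, rfl⟩
      exact ⟨col g j, col_mem_cols g j, rfl⟩
  rw [h1, (affInd hg).affineSpan_eq_top_iff_card_eq_finrank_add_one]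
  simp

theorem interior_hull_small {σ : Finset ZV} (h : σ.card ≤ 4) : interior (hull σ) = ∅ := by
  classical
  by_contra hne
  rw [← ne_eq, ← Set.nonempty_iff_ne_empty] at hne
  unfold hull at hne
  rw [interior_convexHull_nonempty_iff_affineSpan_eq_top] at hne
  rcases σ.eq_empty_or_nonempty with rfl | hσ
  · simp at hne
  · have hcard : σ.card = (σ.card - 1) + 1 := by
      have := hσ.card_pos
      omega
    have h1 := finrank_vectorSpan_image_finset_le ℝ PP σ hcard
    have h2 : ((σ.image PP : Finset (E 4)) : Set (E 4)) = PP '' (σ : Set ZV) := by simp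
    rw [h2] at h1
    have h3 : vectorSpan ℝ (PP '' (σ : Set ZV)) = ⊤ := by
      rw [← direction_affineSpan, hne]; simp
    rw [h3] at h1
    simp at h1
    omega

theorem hull_finite (σ : Finset ZV) : (PP '' (σ : Set ZV)).Finite := σ.finite_toSet.image _

/-- Membership of vertices in hulls. -/
theorem PP_mem_hull {g h : UU} (hg : g ∈ Gam) (hh : h ∈ Gam) {v : ZV} (hv : v ∈ cols g)
    {τ : Finset ZV} (hτ : τ ⊆ cols h) : PP v ∈ hull τ ↔ v ∈ τ := by
  constructor
  · intro hm
    have h1 : PP v ∈ hull {v} := subset_convexHull ℝ _ ⟨v, by simp, rfl⟩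
    have h2 : PP v ∈ hull ({v} ∩ τ) := by
      rw [← hull_inter hg hh (Finset.singleton_subset_iff.mpr hv) hτ]
      exact ⟨h1, hm⟩
    by_contra hc
    rw [Finset.singleton_inter_of_notMem hc] at h2
    simp [hull] at h2
  · intro hv'
    exact subset_convexHull ℝ _ ⟨v, hv', rfl⟩

theorem hull_subset_iff {g h : UU} (hg : g ∈ Gam) (hh : h ∈ Gam) {σ τ : Finset ZV}
    (hσ : σ ⊆ cols g) (hτ : τ ⊆ cols h) : hull σ ⊆ hull τ ↔ σ ⊆ τ := by
  constructor
  · intro hs v hv
    exact (PP_mem_hull hg hh (hσ hv) hτ).mp (hs (subset_convexHull ℝ _ ⟨v, hv, rfl⟩))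
  · exact hull_mono

/-- Bound for the time coordinate over a bounded set. -/
theorem sm_le_of_mem {g : UU} (hg : g ∈ Gam) {r : ℝ} {x : Fin 5 → ℝ}
    (hx : ∀ j, 0 ≤ x j) (hs : sm x = 1) (hy : ‖pr (act g x)‖ ≤ r) :
    Fut (act g x) ∧ 1 ≤ frm ph (act g x) (act g x) ∧ sm (act g x) ≤ 10 + 10 * r := by
  have hp := ph_pos
  have hl := ph_lo
  have hh := ph_hi
  have hr : 0 ≤ r := (norm_nonneg _).trans hy
  have h1 : 1 ≤ frm ph x x := by
    have := sq_sum_le hx
    rw [hs] at this
    linarith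
  have hfx : Fut x := ⟨by linarith, by rw [hs]; norm_num⟩
  have hf := Gam.fut hg hfx
  have h2 : frm ph x x ≤ 1 + 2 * ph := by
    unfold frm
    change (1 + 2 * ph) * (sm x * sm x) - 2 * ph * ∑ i, x i * x i ≤ _
    rw [hs]
    have : 0 ≤ ∑ i, x i * x i := Finset.sum_nonneg (fun i _ => mul_self_nonneg _)
    nlinarith
  have hi := Gam.isom hg x x
  refine ⟨hf, by rw [hi]; exact h1, ?_⟩
  -- decompose
  set X := act g x with hX
  set t := sm X / 5 with ht
  set X0 := X - t • ones with hX0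
  have hones : sm ones = 5 := by simp [sm, ones]
  have hX0s : sm X0 = 0 := by rw [hX0, sm_sub, sm_smul, hones, ht]; ring
  have hfo : ∀ X : Fin 5 → ℝ, frm ph ones X = (5 + 8 * ph) * sm X := fun X => frm_one_left ph X
  have hXe : X = X0 + t • ones := by rw [hX0]; simp
  have hn : frm ph X X = frm ph X0 X0 + 5 * (5 + 8 * ph) * t ^ 2 := by
    rw [hXe, frm_add_left, frm_add_right, frm_add_right, frm_smul_left, frm_smul_right,
      frm_smul_left, frm_smul_right, frm_comm ph X0 ones, hfo, hfo, hX0s, hones]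
    ring
  have hpr : pr X0 = pr X := by rw [hX0, map_sub, map_smul, pr_ones]; simp
  -- coordinates of X0
  have hco : ∀ i : Fin 4, |X0 i.castSucc - X0 (Fin.last 4)| ≤ r := by
    intro i
    have h3 : ‖(pr X0) i‖ ≤ ‖pr X0‖ := PiLp.norm_apply_le _ i
    rw [pr_apply, Real.norm_eq_abs] at h3
    rw [hpr] at h3
    exact h3.trans hy
  have hlow : -(2 * ph * (20 * r ^ 2)) ≤ frm ph X0 X0 := by
    unfold frm
    have e0 : (∑ i, X0 i) = 0 := hX0s
    rw [e0]
    have e1 : ∑ i, X0 i * X0 i ≤ 20 * r ^ 2 := by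
      have c0 := hco 0
      have c1 := hco 1
      have c2 := hco 2
      have c3 := hco 3
      rw [show (Fin.castSucc (0 : Fin 4)) = (0 : Fin 5) from rfl,
        show (Fin.last 4) = (4 : Fin 5) from rfl, abs_le] at c0
      rw [show (Fin.castSucc (1 : Fin 4)) = (1 : Fin 5) from rfl,
        show (Fin.last 4) = (4 : Fin 5) from rfl, abs_le] at c1
      rw [show (Fin.castSucc (2 : Fin 4)) = (2 : Fin 5) from rfl,
        show (Fin.last 4) = (4 : Fin 5) from rfl, abs_le] at c2
      rw [show (Fin.castSucc (3 : Fin 4)) = (3 : Fin 5) from rfl,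
        show (Fin.last 4) = (4 : Fin 5) from rfl, abs_le] at c3
      rw [Fin.sum_univ_five] at e0 ⊢
      have d4 : X0 4 ≤ 2 * r ∧ -(2 * r) ≤ X0 4 := by constructor <;> linarith
      have d0 : X0 0 ≤ 2 * r ∧ -(2 * r) ≤ X0 0 := by constructor <;> linarith
      have d1 : X0 1 ≤ 2 * r ∧ -(2 * r) ≤ X0 1 := by constructor <;> linarith
      have d2 : X0 2 ≤ 2 * r ∧ -(2 * r) ≤ X0 2 := by constructor <;> linarith
      have d3 : X0 3 ≤ 2 * r ∧ -(2 * r) ≤ X0 3 := by constructor <;> linarith
      have sq : ∀ z : ℝ, z ≤ 2 * r ∧ -(2 * r) ≤ z → z * z ≤ 4 * r ^ 2 := by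
        rintro z ⟨z1, z2⟩
        nlinarith
      have := sq _ d0
      have := sq _ d1
      have := sq _ d2
      have := sq _ d3
      have := sq _ d4
      linarith
    nlinarith
  have ht2 : t ^ 2 ≤ (1 + 2 * r) ^ 2 := by
    rw [hi] at hn
    have h5 : 5 * (5 + 8 * ph) * t ^ 2 ≤ 1 + 2 * ph + 2 * ph * (20 * r ^ 2) := by linarith
    nlinarith [sq_nonneg t, sq_nonneg r]
  have ht3 : t ≤ 1 + 2 * r := by
    by_contra hc
    push Not at hc
    have : (1 + 2 * r) ^ 2 < t ^ 2 := pow_lt_pow_left₀ hc (by linarith) (by norm_num)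
    linarith
  have : sm X = 5 * t := by rw [ht]; ring
  rw [this]
  linarith

theorem isLFC : IsLFCTiling T5 where
  isPolytope := by
    rintro T ⟨g, hg, rfl⟩
    exact ⟨_, hull_finite _, rfl⟩
  interior_nonempty := by
    rintro T ⟨g, hg, rfl⟩
    exact interior_hull hg
  cover := by
    rw [Set.eq_univ_iff_forall]
    intro y
    obtain ⟨g, hg, hy⟩ := covering y
    exact ⟨hull (cols g), ⟨g, hg, rfl⟩, hy⟩
  interiors_disjoint := by
    rintro T ⟨g, hg, rfl⟩ T' ⟨h, hh, rfl⟩ hne
    rw [Set.disjoint_iff_inter_eq_empty, ← interior_inter,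
      hull_inter hg hh (Finset.Subset.refl _) (Finset.Subset.refl _)]
    apply interior_hull_small
    by_contra hc
    push Not at hc
    have h1 : cols g ∩ cols h = cols g :=
      Finset.eq_of_subset_of_card_le Finset.inter_subset_left (by rw [cols_card]; omega)
    have h2 : cols g ∩ cols h = cols h :=
      Finset.eq_of_subset_of_card_le Finset.inter_subset_right (by rw [cols_card]; omega)
    exact hne (by rw [← h1, h2])
  faceToFace := by
    rintro T ⟨g, hg, rfl⟩ T' ⟨h, hh, rfl⟩
    rw [hull_inter hg hh (Finset.Subset.refl _) (Finset.Subset.refl _)]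
    exact ⟨isFace_hull hg Finset.inter_subset_left, isFace_hull hh Finset.inter_subset_right⟩
  locallyFinite := by
    intro B hB
    obtain ⟨r, hr⟩ := hB.exists_norm_le
    have hfin := (finite_near (10 + 10 * |r|)).image (fun g : UU => hull (cols g))
    refine hfin.subset ?_
    rintro T ⟨⟨g, hg, rfl⟩, y, hy, hyB⟩
    refine ⟨g, ?_, rfl⟩
    obtain ⟨x, a1, a2, a3, a4⟩ := (mem_hull (Finset.Subset.refl _)).mp hy
    have h1 : ‖pr (act g x)‖ ≤ |r| := by
      rw [← a4]; exact (hr y hyB).trans (le_abs_self r)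
    obtain ⟨b1, b2, b3⟩ := sm_le_of_mem hg a1 a2 h1
    refine ⟨hg, act g x, b1, b2, b3, ?_⟩
    rw [act_inv_act, a2]
    have := abs_nonneg r
    linarith

end Pool.Agent.Helper22
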