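import Pool.Agent.Helper22.PolyFace

/-!
# Vertices of faces of polytopes, and of elements of the face lattice
-/

namespace Pool.Agent.Helper22.RegTiling

variable {d : ℕ}

theorem IsFace.isExposed {P F : Set (E d)} (h : IsFace P F) : IsExposed ℝ P F := by
  intro hne
  rcases h with rfl | ⟨l, hl⟩
  · exact absurd hne Set.not_nonempty_empty
  · exact ⟨l, hl⟩

theorem IsFace.isCompact {S F : Set (E d)} (hS : S.Finite) (h : IsFace (convexHull ℝ S) F) :
    IsCompact F := by
  rw [h.eq_hull hS]
  exact (hS.subset Set.inter_subset_left).isCompact_convexHull ℝ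

/-- Extreme points of polytopes are vertices. -/
theorem isFace_singleton {S : Set (E d)} (hS : S.Finite) {q : E d}
    (hq : q ∈ (convexHull ℝ S).extremePoints ℝ) : IsFace (convexHull ℝ S) {q} := by
  have hqS : q ∈ S := extremePoints_convexHull_subset hq
  have h1 := ((convex_convexHull ℝ S).mem_extremePoints_iff_mem_sdiff_convexHull_sdiff).mp hq
  have h2 : q ∉ convexHull ℝ (S \ {q}) := by
    intro h
    apply h1.2
    refine convexHull_mono ?_ h
    intro x hx
    exact ⟨subset_convexHull ℝ S hx.1, hx.2⟩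
  have hfin : (S \ {q}).Finite := hS.subset Set.sdiff_subset
  obtain ⟨l, u, hl1, hl2⟩ := geometric_hahn_banach_point_closed (convex_convexHull ℝ (S \ {q}))
    (hfin.isCompact_convexHull ℝ).isClosed h2
  right
  refine ⟨-l, ?_⟩
  have hmem : q ∈ convexHull ℝ S := subset_convexHull ℝ S hqS
  -- on `S` the functional is at least `l q`
  have hge : ∀ x ∈ convexHull ℝ S, l q ≤ l x := by
    intro x hx
    have hc : Convex ℝ {x | l q ≤ l x} := by
      intro a ha b hb s t hs ht hst
      simp only [Set.mem_ofPred_eq] at ha hb ⊢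
      rw [map_add, map_smul, map_smul, smul_eq_mul, smul_eq_mul]
      have : l q = s * l q + t * l q := by rw [← add_mul, hst, one_mul]
      rw [this]
      exact add_le_add (mul_le_mul_of_nonneg_left ha hs) (mul_le_mul_of_nonneg_left hb ht)
    have hsub : S ⊆ {x | l q ≤ l x} := by
      intro a ha
      by_cases hq' : a = q
      · rw [hq']; exact le_refl (l q)
      · exact (hl1.trans (hl2 a (subset_convexHull ℝ _ ⟨ha, hq'⟩))).le
    exact convexHull_min hsub hc hx
  apply Set.Subset.antisymm
  · rintro x rfl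
    refine ⟨hmem, ?_⟩
    intro y hy
    simp only [neg_apply, neg_le_neg_iff]
    exact hge y hy
  · intro x hx
    have hF : IsFace (convexHull ℝ S) {x | x ∈ convexHull ℝ S ∧
      ∀ y ∈ convexHull ℝ S, (-l) y ≤ (-l) x} := Or.inr ⟨-l, rfl⟩
    have h3 := hF.eq_hull hS
    have h4 : S ∩ {x | x ∈ convexHull ℝ S ∧ ∀ y ∈ convexHull ℝ S, (-l) y ≤ (-l) x} ⊆ {q} := by
      rintro a ⟨ha, ha2, ha3⟩
      by_contra hne
      have h5 := ha3 q hmem
      simp only [neg_apply, neg_le_neg_iff] at h5
      have h6 := hl1.trans (hl2 a (subset_convexHull ℝ _ ⟨ha, hne⟩))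
      linarith
    have hx' : x ∈ {x | x ∈ convexHull ℝ S ∧ ∀ y ∈ convexHull ℝ S, (-l) y ≤ (-l) x} := hx
    rw [h3] at hx'
    have h7 := convexHull_mono (𝕜 := ℝ) h4 hx'
    rwa [convexHull_singleton] at h7

theorem IsFace.singleton_of_extreme {S F : Set (E d)} (hS : S.Finite)
    (h : IsFace (convexHull ℝ S) F) {q : E d} (hq : q ∈ F.extremePoints ℝ) :
    IsFace (convexHull ℝ S) {q} :=
  isFace_singleton hS (h.isExposed.isExtreme.extremePoints_subset_extremePoints hq)

theorem IsFace.eq_hull_extreme {S F : Set (E d)} (hS : S.Finite)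
    (h : IsFace (convexHull ℝ S) F) : F = convexHull ℝ (F.extremePoints ℝ) := by
  have hc := h.isCompact hS
  have hconv := h.convex (convex_convexHull ℝ S)
  have h1 := closure_convexHull_extremePoints hc hconv
  have h2 : F.extremePoints ℝ ⊆ S := by
    rw [h.eq_hull hS]
    exact extremePoints_convexHull_subset.trans Set.inter_subset_left
  have h3 : IsClosed (convexHull ℝ (F.extremePoints ℝ)) :=
    ((hS.subset h2).isCompact_convexHull ℝ).isClosed
  rw [← h1]
  conv_rhs => rw [h1]
  exact h3.closure_eq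

end Pool.Agent.Helper22.RegTiling
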