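import Pool.Agent.Helper22.Flags5
import Pool.Agent.Helper22.PolyFace2

/-!
# The tiling is not isomorphic to a regular tiling
-/

namespace Pool.Agent.Helper22

open Matrix RegTiling

/-! ### Euclidean geometry -/

section euclid

variable {F1 F2 U A B : E 4} {L : ℝ}

/-- The reflection step: two different apexes over a common regular tetrahedron (one vertex at the
origin). -/
theorem refl_step (hL : 0 < L)
    (h11 : inner ℝ F1 F1 = L) (h22 : inner ℝ F2 F2 = L) (hUU : inner ℝ U U = L)
    (hAA : inner ℝ A A = L) (hBB : inner ℝ B B = L)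
    (h12 : inner ℝ F1 F2 = L / 2) (h1U : inner ℝ F1 U = L / 2) (h2U : inner ℝ F2 U = L / 2)
    (h1A : inner ℝ F1 A = L / 2) (h2A : inner ℝ F2 A = L / 2) (hUA : inner ℝ U A = L / 2)
    (h1B : inner ℝ F1 B = L / 2) (h2B : inner ℝ F2 B = L / 2) (hUB : inner ℝ U B = L / 2)
    (hAB : A ≠ B) : A + B = (1 / 2 : ℝ) • (F1 + F2 + U) := by
  have h21 : inner ℝ F2 F1 = L / 2 := by rw [real_inner_comm]; exact h12
  have hU1 : inner ℝ U F1 = L / 2 := by rw [real_inner_comm]; exact h1U
  have hU2 : inner ℝ U F2 = L / 2 := by rw [real_inner_comm]; exact h2U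
  have hA1 : inner ℝ A F1 = L / 2 := by rw [real_inner_comm]; exact h1A
  have hA2 : inner ℝ A F2 = L / 2 := by rw [real_inner_comm]; exact h2A
  have hAU : inner ℝ A U = L / 2 := by rw [real_inner_comm]; exact hUA
  have hB1 : inner ℝ B F1 = L / 2 := by rw [real_inner_comm]; exact h1B
  have hB2 : inner ℝ B F2 = L / 2 := by rw [real_inner_comm]; exact h2B
  have hBU : inner ℝ B U = L / 2 := by rw [real_inner_comm]; exact hUB
  have hBA : inner ℝ B A = inner ℝ A B := real_inner_comm _ _
  set D := A - B with hD
  have hDne : D ≠ 0 := sub_ne_zero.mpr hAB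
  have hDD : inner ℝ D D ≠ 0 := by
    intro h
    exact hDne (inner_self_eq_zero.mp h)
  have hli : LinearIndependent ℝ ![F1, F2, U, D] := by
    rw [Fintype.linearIndependent_iff]
    intro c hc
    rw [Fin.sum_univ_four] at hc
    simp only [Matrix.cons_val_zero, Matrix.cons_val_one, Matrix.cons_val_two,
      Matrix.cons_val_three, Matrix.head_cons, Matrix.tail_cons] at hc
    have eD := congrArg (fun x => inner ℝ x D) hc
    have e1 := congrArg (fun x => inner ℝ x F1) hc
    have e2 := congrArg (fun x => inner ℝ x F2) hc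
    have e3 := congrArg (fun x => inner ℝ x U) hc
    simp only [inner_add_left, inner_smul_left, inner_zero_left, RCLike.conj_to_real] at eD e1 e2 e3
    have d1 : inner ℝ F1 D = 0 := by rw [hD, inner_sub_right, h1A, h1B, sub_self]
    have d2 : inner ℝ F2 D = 0 := by rw [hD, inner_sub_right, h2A, h2B, sub_self]
    have d3 : inner ℝ U D = 0 := by rw [hD, inner_sub_right, hUA, hUB, sub_self]
    have d1' : inner ℝ D F1 = 0 := by rw [real_inner_comm]; exact d1
    have d2' : inner ℝ D F2 = 0 := by rw [real_inner_comm]; exact d2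
    have d3' : inner ℝ D U = 0 := by rw [real_inner_comm]; exact d3
    rw [d1, d2, d3] at eD
    rw [h11, h21, hU1, d1'] at e1
    rw [h12, h22, hU2, d2'] at e2
    rw [h1U, h2U, hUU, d3'] at e3
    have c3 : c 3 = 0 := by
      have : c 3 * inner ℝ D D = 0 := by linarith
      exact (mul_eq_zero.mp this).resolve_right hDD
    have k1 : (c 0 + c 1 / 2 + c 2 / 2) * L = 0 := by linarith
    have k2 : (c 0 / 2 + c 1 + c 2 / 2) * L = 0 := by linarith
    have k3 : (c 0 / 2 + c 1 / 2 + c 2) * L = 0 := by linarith
    have m1 := (mul_eq_zero.mp k1).resolve_right hL.ne'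
    have m2 := (mul_eq_zero.mp k2).resolve_right hL.ne'
    have m3 := (mul_eq_zero.mp k3).resolve_right hL.ne'
    intro i
    fin_cases i
    · change c 0 = 0; linarith
    · change c 1 = 0; linarith
    · change c 2 = 0; linarith
    · exact c3
  have hspan := hli.span_eq_top_of_card_eq_finrank (by simp)
  set W := A + B - (1 / 2 : ℝ) • (F1 + F2 + U) with hW
  have hWF : ∀ x ∈ Set.range ![F1, F2, U, D], inner ℝ x W = 0 := by
    rintro x ⟨i, rfl⟩
    fin_cases i
    · change inner ℝ F1 W = 0
      rw [hW, inner_sub_right, inner_add_right, inner_smul_right, inner_add_right, inner_add_right,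
        h1A, h1B, h11, h12, h1U]
      ring
    · change inner ℝ F2 W = 0
      rw [hW, inner_sub_right, inner_add_right, inner_smul_right, inner_add_right, inner_add_right,
        h2A, h2B, h21, h22, h2U]
      ring
    · change inner ℝ U W = 0
      rw [hW, inner_sub_right, inner_add_right, inner_smul_right, inner_add_right, inner_add_right,
        hUA, hUB, hU1, hU2, hUU]
      ring
    · change inner ℝ D W = 0
      rw [hD, hW, inner_sub_left, inner_sub_right, inner_sub_right, inner_add_right,
        inner_add_right, inner_smul_right, inner_smul_right, inner_add_right, inner_add_right,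
        inner_add_right, inner_add_right, hAA, hBB, hA1, hA2, hAU, hB1, hB2, hBU, hBA]
      ring
  have hWW : inner ℝ W W = 0 := by
    have : W ∈ Submodule.span ℝ (Set.range ![F1, F2, U, D]) := by rw [hspan]; trivial
    exact Submodule.span_induction (p := fun x _ => inner ℝ x W = 0) hWF (by simp)
      (fun x y _ _ hx hy => by rw [inner_add_left, hx, hy, add_zero])
      (fun a x _ hx => by rw [inner_smul_left, hx, mul_zero]) this
  have h0 : W = 0 := inner_self_eq_zero.mp hWW
  rw [hW, sub_eq_zero] at h0
  exact h0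

/-- Polarisation for equilateral configurations. -/
theorem inner_of_dist {p q r : E 4} {l : ℝ} (h1 : dist p r = l) (h2 : dist q r = l)
    (h3 : dist p q = l) : inner ℝ (p - r) (q - r) = l ^ 2 / 2 := by
  have h4 : p - q = (p - r) - (q - r) := by abel
  rw [dist_eq_norm] at h1 h2 h3
  have h5 := norm_sub_sq_real (p - r) (q - r)
  rw [← h4, h1, h2, h3] at h5
  linarith

theorem inner_self_of_dist {p r : E 4} {l : ℝ} (h1 : dist p r = l) :
    inner ℝ (p - r) (p - r) = l ^ 2 := by
  rw [real_inner_self_eq_norm_sq, ← dist_eq_norm, h1]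

/-- The reflection step in terms of distances. -/
theorem refl_dist {f1 f2 f3 u a b : E 4} {l : ℝ} (hl : 0 < l)
    (h12 : dist f1 f2 = l) (h13 : dist f1 f3 = l) (h23 : dist f2 f3 = l)
    (hu1 : dist u f1 = l) (hu2 : dist u f2 = l) (hu3 : dist u f3 = l)
    (ha1 : dist a f1 = l) (ha2 : dist a f2 = l) (ha3 : dist a f3 = l)
    (hb1 : dist b f1 = l) (hb2 : dist b f2 = l) (hb3 : dist b f3 = l)
    (hua : dist u a = l) (hub : dist u b = l) (hab : a ≠ b) :
    b = (1 / 2 : ℝ) • (f1 + f2 + f3 + u) - a := by
  have hne : a - f3 ≠ b - f3 := fun h => hab (sub_left_injective h)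
  have h1u : dist f1 u = l := by rw [dist_comm]; exact hu1
  have h2u : dist f2 u = l := by rw [dist_comm]; exact hu2
  have h1a : dist f1 a = l := by rw [dist_comm]; exact ha1
  have h2a : dist f2 a = l := by rw [dist_comm]; exact ha2
  have h1b : dist f1 b = l := by rw [dist_comm]; exact hb1
  have h2b : dist f2 b = l := by rw [dist_comm]; exact hb2
  have key := refl_step (L := l ^ 2) (by positivity) (inner_self_of_dist h13)
    (inner_self_of_dist h23) (inner_self_of_dist hu3) (inner_self_of_dist ha3)
    (inner_self_of_dist hb3) (inner_of_dist h13 h23 h12) (inner_of_dist h13 hu3 h1u)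
    (inner_of_dist h23 hu3 h2u) (inner_of_dist h13 ha3 h1a) (inner_of_dist h23 ha3 h2a)
    (inner_of_dist hu3 ha3 hua) (inner_of_dist h13 hb3 h1b) (inner_of_dist h23 hb3 h2b)
    (inner_of_dist hu3 hb3 hub) hne
  have h5 : b = (1 / 2 : ℝ) • (f1 - f3 + (f2 - f3) + (u - f3)) - (a - f3) + f3 := by
    rw [← key]; abel
  rw [h5]
  module

end euclid

end Pool.Agent.Helper22
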