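import Pool.Agent.Helper22.NR5

/-!
# The tiling is not isomorphic to a regular tiling: lattice part
-/

namespace Pool.Agent.Helper22

open Matrix RegTiling

/-- The flag given by a frame. -/
theorem exists_flagOf (g : UU) (hg : g ∈ Gam) : ∃ Φ : Flag (WithTop Cx),
    (Φ : Set (WithTop Cx)) =
      {a : WithTop Cx | a = ⊤ ∨ ∃ k ≤ 5, a = ((segC g hg k : Cx) : WithTop Cx)} := by
  have hch : IsChain (· ≤ ·)
      {a : WithTop Cx | a = ⊤ ∨ ∃ k ≤ 5, a = ((segC g hg k : Cx) : WithTop Cx)} := by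
    rintro a ha b hb _
    rcases ha with rfl | ⟨k, hk, rfl⟩
    · exact Or.inr le_top
    · rcases hb with rfl | ⟨m, hm, rfl⟩
      · exact Or.inl le_top
      · rcases le_total k m with h | h
        · left
          refine WithTop.coe_le_coe.mpr (show segC g hg k ≤ segC g hg m from ?_)
          change seg g k ⊆ seg g m
          apply Finset.image_subset_image
          intro j hj
          simp only [Finset.mem_filter, Finset.mem_univ, true_and] at hj ⊢
          omega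
        · right
          refine WithTop.coe_le_coe.mpr (show segC g hg m ≤ segC g hg k from ?_)
          change seg g m ⊆ seg g k
          apply Finset.image_subset_image
          intro j hj
          simp only [Finset.mem_filter, Finset.mem_univ, true_and] at hj ⊢
          omega
  obtain ⟨Φ, hΦ⟩ := hch.exists_subset_flag
  obtain ⟨g', hg', hform⟩ := flag_form Φ
  refine ⟨Φ, ?_⟩
  have hcard : ∀ (g : UU) (k : ℕ), k ≤ 5 → (seg g k).card = k := by
    intro g k hk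
    unfold seg
    rw [Finset.card_image_of_injective _ (col_injective g)]
    interval_cases k <;> rfl
  have heq : ∀ k ≤ 5, segC g hg k = segC g' hg' k := by
    intro k hk
    have h1 : ((segC g hg k : Cx) : WithTop Cx) ∈ (Φ : Set (WithTop Cx)) :=
      hΦ (Or.inr ⟨k, hk, rfl⟩)
    rw [hform] at h1
    rcases h1 with h1 | ⟨m, hm, h1⟩
    · exact absurd h1 WithTop.coe_ne_top
    · have h2 := WithTop.coe_injective h1
      have h3 : (seg g k).card = (seg g' m).card := congrArg (fun s : Cx => s.1.card) h2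
      rw [hcard g k hk, hcard g' m hm] at h3
      rw [h2, h3]
  rw [hform]
  ext a
  constructor
  · rintro (h | ⟨k, hk, h⟩)
    · exact Or.inl h
    · exact Or.inr ⟨k, hk, by rw [heq k hk]; exact h⟩
  · rintro (h | ⟨k, hk, h⟩)
    · exact Or.inl h
    · exact Or.inr ⟨k, hk, by rw [← heq k hk]; exact h⟩

theorem seg_card (g : UU) (k : ℕ) (hk : k ≤ 5) : (seg g k).card = k := by
  unfold seg
  rw [Finset.card_image_of_injective _ (col_injective g)]
  interval_cases k <;> rfl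

section iso

variable {𝒯 : Set (Set (E 4))} (hT : IsLFCTiling 𝒯) (ψ : WithTop Cx ≃o FaceLattice 𝒯)

/-- The empty simplex. -/
def emptyC : Cx := ⟨∅, 1, Gam.one_mem, Finset.empty_subset _⟩

include hT in
theorem Fc_face (σ : Cx) (hσ : σ.1.Nonempty) :
    (ψ (σ : WithTop Cx)).1.Nonempty ∧ ∃ S : Set (E 4), S.Finite ∧ convexHull ℝ S ∈ 𝒯 ∧
      IsFace (convexHull ℝ S) (ψ (σ : WithTop Cx)).1 := by
  have hle : ∀ x y : FaceLattice 𝒯, x ≤ y ↔ x.1 ⊆ y.1 := fun _ _ => Iff.rfl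
  have hne : (ψ (σ : WithTop Cx)).1 ≠ ∅ := by
    intro h
    have h1 : ψ (σ : WithTop Cx) ≤ ψ ((emptyC : Cx) : WithTop Cx) := by
      rw [hle, h]; exact Set.empty_subset _
    have h2 : (σ : WithTop Cx) ≤ ((emptyC : Cx) : WithTop Cx) := ψ.le_iff_le.mp h1
    have h3 : σ ≤ emptyC := WithTop.coe_le_coe.mp h2
    have h4 : σ.1 ⊆ ∅ := h3
    rw [Finset.subset_empty] at h4
    rw [h4] at hσ
    simp at hσ
  have hnu : (ψ (σ : WithTop Cx)).1 ≠ Set.univ := by
    intro h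
    have h1 : ψ ⊤ ≤ ψ (σ : WithTop Cx) := by
      rw [hle, h]; exact Set.subset_univ _
    have h2 : (⊤ : WithTop Cx) ≤ σ := ψ.le_iff_le.mp h1
    exact WithTop.coe_ne_top (top_le_iff.mp h2)
  refine ⟨Set.nonempty_iff_ne_empty.mpr hne, ?_⟩
  rcases (ψ (σ : WithTop Cx)).2 with h | h | ⟨T, hT1, hT2⟩
  · exact absurd h hne
  · exact absurd h hnu
  · obtain ⟨S, hS, rfl⟩ := hT.isPolytope T hT1
    exact ⟨S, hS, hT1, hT2⟩

/-- A single vertex of the complex. -/
def vC (v : ZV) (hv : ∃ g ∈ Gam, v ∈ cols g) : Cx :=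
  ⟨{v}, by
    obtain ⟨g, hg, h⟩ := hv
    exact ⟨g, hg, Finset.singleton_subset_iff.mpr h⟩⟩

include hT in
theorem extreme_vertex (σ : Cx) (hσ : σ.1.Nonempty) {q : E 4}
    (hq : q ∈ (ψ (σ : WithTop Cx)).1.extremePoints ℝ) :
    ∃ v, ∃ hv : ∃ g ∈ Gam, v ∈ cols g, v ∈ σ.1 ∧ (ψ ((vC v hv : Cx) : WithTop Cx)).1 = {q} := by
  have hle : ∀ x y : FaceLattice 𝒯, x ≤ y ↔ x.1 ⊆ y.1 := fun _ _ => Iff.rfl
  obtain ⟨hne, S, hS, hST, hF⟩ := Fc_face hT ψ σ hσ
  have hqf := hF.singleton_of_extreme hS hq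
  let y : FaceLattice 𝒯 := ⟨{q}, Or.inr (Or.inr ⟨_, hST, hqf⟩)⟩
  have hy : y ≤ ψ (σ : WithTop Cx) := by
    rw [hle]
    exact Set.singleton_subset_iff.mpr (extremePoints_subset hq)
  have h1 : ψ.symm y ≤ (σ : WithTop Cx) := by
    rw [← ψ.symm_apply_apply (σ : WithTop Cx)]
    exact ψ.symm.le_iff_le.mpr hy
  obtain ⟨τ, hτ⟩ : ∃ τ : Cx, (τ : WithTop Cx) = ψ.symm y :=
    WithTop.ne_top_iff_exists.mp (fun h => WithTop.coe_ne_top (top_le_iff.mp (h ▸ h1)))
  have hψτ : ψ (τ : WithTop Cx) = y := by rw [hτ, ψ.apply_symm_apply]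
  have h2 : τ.1 ⊆ σ.1 := by
    rw [← hτ] at h1
    exact (WithTop.coe_le_coe.mp h1 : τ ≤ σ)
  have h3 : τ.1.Nonempty := by
    rw [Finset.nonempty_iff_ne_empty]
    intro h
    -- then `ψ τ` is the least element, the empty set
    have h4 : (τ : WithTop Cx) ≤ ψ.symm ⟨∅, Or.inl rfl⟩ := by
      have : τ = emptyC := Subtype.ext h
      rw [this]
      induction (ψ.symm ⟨∅, Or.inl rfl⟩) using WithTop.recTopCoe with
      | top => exact le_top
      | coe π =>
        rw [WithTop.coe_le_coe]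
        exact Finset.empty_subset _
    have h5 : ψ (τ : WithTop Cx) ≤ ⟨∅, Or.inl rfl⟩ := by
      rw [← ψ.apply_symm_apply ⟨∅, Or.inl rfl⟩]
      exact ψ.le_iff_le.mpr h4
    rw [hψτ, hle] at h5
    exact Set.singleton_ne_empty q (Set.subset_empty_iff.mp h5)
  obtain ⟨v, hv⟩ := h3
  obtain ⟨g, hg, hτg⟩ := τ.2
  have hvg : ∃ g ∈ Gam, v ∈ cols g := ⟨g, hg, hτg hv⟩
  refine ⟨v, hvg, h2 hv, ?_⟩
  have h6 : ψ ((vC v hvg : Cx) : WithTop Cx) ≤ ψ (τ : WithTop Cx) := by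
    apply ψ.le_iff_le.mpr
    rw [WithTop.coe_le_coe]
    exact Finset.singleton_subset_iff.mpr hv
  rw [hψτ, hle] at h6
  have h7 := (Fc_face hT ψ (vC v hvg) (by simp [vC])).1
  exact (Set.subset_singleton_iff_eq.mp h6).resolve_left (Set.nonempty_iff_ne_empty.mp h7)

include hT in
theorem vertex_point (v : ZV) (hv : ∃ g ∈ Gam, v ∈ cols g) :
    ∃ q : E 4, (ψ ((vC v hv : Cx) : WithTop Cx)).1 = {q} := by
  obtain ⟨hne, S, hS, hST, hF⟩ := Fc_face hT ψ (vC v hv) (by simp [vC])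
  obtain ⟨q, hq⟩ := (hF.isCompact hS).extremePoints_nonempty hne
  obtain ⟨w, hw, hwv, hwq⟩ := extreme_vertex hT ψ (vC v hv) (by simp [vC]) hq
  have : w = v := by simpa [vC] using hwv
  subst this
  exact ⟨q, hwq⟩

open Classical in
/-- The position of a vertex. -/
noncomputable def pos (v : ZV) : E 4 :=
  if h : ∃ hv : ∃ g ∈ Gam, v ∈ cols g, ∃ q : E 4, (ψ ((vC v hv : Cx) : WithTop Cx)).1 = {q}
  then h.choose_spec.choose else 0

include hT in
theorem pos_spec (v : ZV) (hv : ∃ g ∈ Gam, v ∈ cols g) :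
    (ψ ((vC v hv : Cx) : WithTop Cx)).1 = {pos ψ v} := by
  have h : ∃ hv : ∃ g ∈ Gam, v ∈ cols g, ∃ q : E 4,
      (ψ ((vC v hv : Cx) : WithTop Cx)).1 = {q} := ⟨hv, vertex_point hT ψ v hv⟩
  unfold pos
  rw [dif_pos h]
  exact h.choose_spec.choose_spec

include hT in
theorem pos_inj {v w : ZV} (hv : ∃ g ∈ Gam, v ∈ cols g) (hw : ∃ g ∈ Gam, w ∈ cols g)
    (h : pos ψ v = pos ψ w) : v = w := by
  have h1 : ψ ((vC v hv : Cx) : WithTop Cx) = ψ ((vC w hw : Cx) : WithTop Cx) := by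
    apply Subtype.ext
    rw [pos_spec hT ψ v hv, pos_spec hT ψ w hw, h]
  have h2 := WithTop.coe_injective (ψ.injective h1)
  have h3 : ({v} : Finset ZV) = {w} := congrArg Subtype.val h2
  exact Finset.singleton_injective h3

include hT in
/-- A face is the convex hull of the positions of its vertices. -/
theorem Fc_eq (σ : Cx) (hσ : σ.1.Nonempty) :
    (ψ (σ : WithTop Cx)).1 = convexHull ℝ (pos ψ '' (σ.1 : Set ZV)) := by
  have hle : ∀ x y : FaceLattice 𝒯, x ≤ y ↔ x.1 ⊆ y.1 := fun _ _ => Iff.rfl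
  obtain ⟨hne, S, hS, hST, hF⟩ := Fc_face hT ψ σ hσ
  apply Set.Subset.antisymm
  · rw [hF.eq_hull_extreme hS]
    apply convexHull_mono
    intro q hq
    obtain ⟨v, hv, hvσ, hvq⟩ := extreme_vertex hT ψ σ hσ hq
    rw [pos_spec hT ψ v hv] at hvq
    exact ⟨v, hvσ, Set.singleton_injective hvq⟩
  · refine convexHull_min ?_ (hF.convex (convex_convexHull ℝ S))
    rintro _ ⟨v, hv, rfl⟩
    obtain ⟨g, hg, hσg⟩ := σ.2
    have hvg : ∃ g ∈ Gam, v ∈ cols g := ⟨g, hg, hσg hv⟩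
    have h1 : ψ ((vC v hvg : Cx) : WithTop Cx) ≤ ψ (σ : WithTop Cx) := by
      apply ψ.le_iff_le.mpr
      rw [WithTop.coe_le_coe]
      exact Finset.singleton_subset_iff.mpr hv
    rw [hle, pos_spec hT ψ v hvg] at h1
    exact Set.singleton_subset_iff.mp h1

end iso

end Pool.Agent.Helper22
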