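import Pool.Agent.Helper22.NR5b

/-!
# The tiling is not isomorphic to a regular tiling: conclusion
-/

namespace Pool.Agent.Helper22

open Matrix RegTiling

theorem Rf_single {i j : Fin 5} (h : j ≠ i) :
    (Rf i : Matrix (Fin 5) (Fin 5) ZP) *ᵥ Pi.single j 1 = Pi.single j 1 := by
  rw [Matrix.mulVec_single_one]
  funext k
  simp only [Rf, Rfm, Matrix.col_apply, Pi.single_apply]
  simp [h]

theorem col_mul_Rf (g : UU) {i j : Fin 5} (h : j ≠ i) : col (g * Rf i) j = col g j := by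
  unfold col
  rw [Units.val_mul, ← Matrix.mulVec_mulVec, Rf_single h]

theorem col_mul_Rf_ne (g : UU) (i : Fin 5) : col (g * Rf i) i ≠ col g i := by
  intro h
  unfold col at h
  rw [Units.val_mul, ← Matrix.mulVec_mulVec] at h
  have h1 := mulVec_injective g h
  rw [Matrix.mulVec_single_one] at h1
  have h2 := congrFun h1 i
  simp only [Rf, Rfm, Matrix.col_apply, Pi.single_eq_same, if_true] at h2
  revert h2
  decide

theorem col_cycle : col (1 * Rf 0 * Rf 1 * Rf 0 * Rf 1) 1 = col 1 0 := by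
  decide +kernel

section iso

variable {𝒯 : Set (Set (E 4))} (hT : IsLFCTiling 𝒯) (ψ : WithTop Cx ≃o FaceLattice 𝒯)

/-- The members of the flag of a frame. -/
def xg (g : UU) (hg : g ∈ Gam) (i : Fin 7) : WithTop Cx :=
  if (i : ℕ) ≤ 5 then ((segC g hg i : Cx) : WithTop Cx) else ⊤

theorem xg_strictMono (g : UU) (hg : g ∈ Gam) : StrictMono (xg g hg) := by
  intro i j hij
  unfold xg
  have hij' : (i : ℕ) < j := hij
  have hi := i.2
  have hj := j.2
  rw [if_pos (by omega)]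
  split_ifs with h
  · rw [WithTop.coe_lt_coe]
    refine lt_of_le_of_ne ?_ ?_
    · change seg g i ⊆ seg g j
      apply Finset.image_subset_image
      intro k hk
      simp only [Finset.mem_filter, Finset.mem_univ, true_and] at hk ⊢
      omega
    · intro he
      have h1 : (seg g i).card = (seg g j).card := congrArg (fun s : Cx => s.1.card) he
      rw [seg_card g i (by omega), seg_card g j h] at h1
      omega
  · exact WithTop.coe_lt_top _

theorem xg_range (g : UU) (hg : g ∈ Gam) : Set.range (xg g hg) =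
    {a : WithTop Cx | a = ⊤ ∨ ∃ k ≤ 5, a = ((segC g hg k : Cx) : WithTop Cx)} := by
  ext a
  constructor
  · rintro ⟨i, rfl⟩
    unfold xg
    split_ifs with h
    · exact Or.inr ⟨i, h, rfl⟩
    · exact Or.inl rfl
  · rintro (rfl | ⟨k, hk, rfl⟩)
    · exact ⟨6, by unfold xg; rw [if_neg]; simp⟩
    · refine ⟨⟨k, by omega⟩, ?_⟩
      unfold xg
      rw [if_pos (by simpa using hk)]

include hT in
theorem edge_face (g : UU) (hg : g ∈ Gam) : Metric.diam (ψ (xg g hg 2)).1 =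
    dist (pos ψ (col g 0)) (pos ψ (col g 1)) := by
  have h1 : xg g hg 2 = ((segC g hg 2 : Cx) : WithTop Cx) := by
    unfold xg; rw [if_pos]; · rfl
    · decide
  have h2 : seg g 2 = {col g 0, col g 1} := by
    unfold seg
    have : (Finset.univ.filter (fun j : Fin 5 => (j : ℕ) < 2)) = {0, 1} := by decide
    rw [this, Finset.image_insert, Finset.image_singleton]
  rw [h1, Fc_eq hT ψ _ (by change (seg g 2).Nonempty; rw [h2]; simp)]
  change Metric.diam (convexHull ℝ (pos ψ '' (seg g 2 : Set ZV))) = _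
  rw [h2, convexHull_diam]
  simp [Set.image_pair, Metric.diam_pair]

include hT in
theorem edges_eq (hreg : IsRegular 𝒯) (g h : UU) (hg : g ∈ Gam) (hh : h ∈ Gam) :
    dist (pos ψ (col g 0)) (pos ψ (col g 1)) = dist (pos ψ (col h 0)) (pos ψ (col h 1)) := by
  have hle : ∀ x y : FaceLattice 𝒯, x ≤ y ↔ x.1 ⊆ y.1 := fun _ _ => Iff.rfl
  obtain ⟨Φ, hΦ⟩ := exists_flagOf g hg
  obtain ⟨Ψ, hΨ⟩ := exists_flagOf h hh
  obtain ⟨t, -, ht⟩ := hreg (Flag.map ψ Φ) (Flag.map ψ Ψ)
  have hfs : ∀ (Ξ : Flag (WithTop Cx)) (f : UU) (hf : f ∈ Gam), (Ξ : Set (WithTop Cx)) =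
      {a : WithTop Cx | a = ⊤ ∨ ∃ k ≤ 5, a = ((segC f hf k : Cx) : WithTop Cx)} →
      flagSets (Flag.map ψ Ξ) = Set.range (fun i => (ψ (xg f hf i)).1) := by
    intro Ξ f hf hΞ
    rw [← xg_range] at hΞ
    ext F
    constructor
    · rintro ⟨x, hx, rfl⟩
      have hx' : x ∈ (ψ '' (Ξ : Set (WithTop Cx))) := hx
      rw [hΞ] at hx'
      obtain ⟨_, ⟨i, rfl⟩, rfl⟩ := hx'
      exact ⟨i, rfl⟩
    · rintro ⟨i, rfl⟩
      refine ⟨ψ (xg f hf i), ?_, rfl⟩
      change ψ (xg f hf i) ∈ (ψ '' (Ξ : Set (WithTop Cx)))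
      rw [hΞ]
      exact ⟨_, ⟨i, rfl⟩, rfl⟩
  rw [hfs Φ g hg hΦ, hfs Ψ h hh hΨ] at ht
  have hex : ∀ i, ∃ j, (ψ (xg h hh j)).1 = t '' (ψ (xg g hg i)).1 := by
    intro i
    have : t '' (ψ (xg g hg i)).1 ∈ Set.range (fun i => (ψ (xg h hh i)).1) := by
      rw [← ht]
      exact ⟨_, ⟨i, rfl⟩, rfl⟩
    obtain ⟨j, hj⟩ := this
    exact ⟨j, hj⟩
  choose f hf using hex
  have hmono : StrictMono f := by
    intro i j hij
    have h1 : ψ (xg g hg i) < ψ (xg g hg j) := ψ.strictMono (xg_strictMono g hg hij)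
    have h2 : ψ (xg h hh (f i)) < ψ (xg h hh (f j)) := by
      rw [lt_iff_le_not_ge, hle, hle] at h1 ⊢
      rw [hf, hf]
      constructor
      · exact Set.image_mono h1.1
      · intro hc
        exact h1.2 ((Set.image_subset_image_iff t.injective).mp hc)
    exact (xg_strictMono h hh).lt_iff_lt.mp (ψ.lt_iff_lt.mp h2)
  have hf2 : f 2 = 2 := le_antisymm hmono.apply_le hmono.le_apply
  have h3 := hf 2
  rw [hf2] at h3
  rw [← edge_face hT ψ g hg, ← edge_face hT ψ h hh, h3, t.isometry.diam_image]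

theorem exists_perm {i j : Fin 5} (h : i ≠ j) : ∃ p : Equiv.Perm (Fin 5), p 0 = i ∧ p 1 = j := by
  refine ⟨Equiv.swap (Equiv.swap 0 i 1) j * Equiv.swap 0 i, ?_, ?_⟩
  · rw [Equiv.Perm.mul_apply, Equiv.swap_apply_left]
    apply Equiv.swap_apply_of_ne_of_ne
    · intro hc
      have h1 : Equiv.swap 0 i 0 = Equiv.swap 0 i 1 := by
        rw [Equiv.swap_apply_left]; exact hc
      exact absurd ((Equiv.swap 0 i).injective h1) (by decide)
    · exact h
  · rw [Equiv.Perm.mul_apply, Equiv.swap_apply_left]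

include hT in
theorem edges_all (hreg : IsRegular 𝒯) (g : UU) (hg : g ∈ Gam) {i j : Fin 5} (hij : i ≠ j) :
    dist (pos ψ (col g i)) (pos ψ (col g j)) = dist (pos ψ (col 1 0)) (pos ψ (col 1 1)) := by
  obtain ⟨p, hp0, hp1⟩ := exists_perm hij
  have h1 := edges_eq hT ψ hreg (g * Pm p) 1 (Gam.mul_mem hg (Pm_mem p)) Gam.one_mem
  rw [col_mul_Pm, col_mul_Pm, hp0, hp1] at h1
  exact h1

include hT in
theorem pos_step (hreg : IsRegular 𝒯) (g : UU) (hg : g ∈ Gam) (i o : Fin 5)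
    (hi2 : i ≠ 2) (hi3 : i ≠ 3) (hi4 : i ≠ 4) (ho2 : o ≠ 2) (ho3 : o ≠ 3) (ho4 : o ≠ 4)
    (hio : o ≠ i) :
    pos ψ (col (g * Rf i) i) = (1 / 2 : ℝ) •
      (pos ψ (col g 2) + pos ψ (col g 3) + pos ψ (col g 4) + pos ψ (col g o)) -
        pos ψ (col g i) := by
  have hg' : g * Rf i ∈ Gam := Gam.mul_mem hg (Rf_mem i)
  set l := dist (pos ψ (col 1 0)) (pos ψ (col 1 1)) with hl
  have hlpos : 0 < l := by
    rw [hl, dist_pos]
    intro h
    have := pos_inj hT ψ ⟨1, Gam.one_mem, col_mem_cols 1 0⟩ ⟨1, Gam.one_mem, col_mem_cols 1 1⟩ h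
    exact absurd (col_injective 1 this) (by decide)
  have E1 : ∀ {a b : Fin 5}, a ≠ b → dist (pos ψ (col g a)) (pos ψ (col g b)) = l :=
    fun h => edges_all hT ψ hreg g hg h
  have E2 : ∀ {b : Fin 5}, i ≠ b → dist (pos ψ (col (g * Rf i) i)) (pos ψ (col g b)) = l := by
    intro b h
    have h1 := edges_all hT ψ hreg (g * Rf i) hg' h
    rwa [col_mul_Rf g h.symm] at h1
  have E2' : ∀ {b : Fin 5}, i ≠ b → dist (pos ψ (col g b)) (pos ψ (col (g * Rf i) i)) = l := by
    intro b h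
    rw [dist_comm]; exact E2 h
  refine refl_dist hlpos (E1 (by decide)) (E1 (by decide)) (E1 (by decide)) (E1 ho2) (E1 ho3)
    (E1 ho4) (E1 hi2) (E1 hi3) (E1 hi4) (E2 hi2) (E2 hi3) (E2 hi4) (E1 hio) (E2' hio.symm) ?_
  intro h
  have := pos_inj hT ψ ⟨g, hg, col_mem_cols g i⟩ ⟨g * Rf i, hg', col_mem_cols _ i⟩ h
  exact col_mul_Rf_ne g i this.symm

include hT ψ in
/-- The tiling `T5` is not isomorphic to a regular tiling. -/
theorem not_regular_aux (hreg : IsRegular 𝒯) : False := by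
  have g0 : (1 : UU) ∈ Gam := Gam.one_mem
  have g1 : (1 : UU) * Rf 0 ∈ Gam := Gam.mul_mem g0 (Rf_mem 0)
  have g2 : (1 : UU) * Rf 0 * Rf 1 ∈ Gam := Gam.mul_mem g1 (Rf_mem 1)
  have g3 : (1 : UU) * Rf 0 * Rf 1 * Rf 0 ∈ Gam := Gam.mul_mem g2 (Rf_mem 0)
  have s1 := pos_step hT ψ hreg 1 g0 0 1 (by decide) (by decide) (by decide) (by decide)
    (by decide) (by decide) (by decide)
  have s2 := pos_step hT ψ hreg _ g1 1 0 (by decide) (by decide) (by decide) (by decide)
    (by decide) (by decide) (by decide)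
  have s3 := pos_step hT ψ hreg _ g2 0 1 (by decide) (by decide) (by decide) (by decide)
    (by decide) (by decide) (by decide)
  have s4 := pos_step hT ψ hreg _ g3 1 0 (by decide) (by decide) (by decide) (by decide)
    (by decide) (by decide) (by decide)
  rw [col_cycle] at s4
  have c : ∀ (g : UU) (i j : Fin 5), j ≠ i → col (g * Rf i) j = col g j := fun g i j h =>
    col_mul_Rf g h
  rw [c _ 0 2 (by decide), c _ 0 3 (by decide), c _ 0 4 (by decide), c _ 0 1 (by decide)] at s2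
  rw [c _ 1 2 (by decide), c _ 1 3 (by decide), c _ 1 4 (by decide), c _ 0 2 (by decide),
    c _ 0 3 (by decide), c _ 0 4 (by decide), c _ 1 0 (by decide)] at s3
  rw [c _ 0 2 (by decide), c _ 0 3 (by decide), c _ 0 4 (by decide), c _ 1 2 (by decide),
    c _ 1 3 (by decide), c _ 1 4 (by decide), c _ 0 2 (by decide),
    c _ 0 3 (by decide), c _ 0 4 (by decide), c _ 0 1 (by decide)] at s4
  generalize pos ψ (col (1 * Rf 0) 0) = p2 at s1 s2 s3 s4
  generalize pos ψ (col (1 * Rf 0 * Rf 1) 1) = p3 at s2 s3 s4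
  generalize pos ψ (col (1 * Rf 0 * Rf 1 * Rf 0) 0) = p4 at s3 s4
  set l := dist (pos ψ (col 1 0)) (pos ψ (col 1 1)) with hl
  have hlpos : 0 < l := by
    rw [hl, dist_pos]
    intro h
    have := pos_inj hT ψ ⟨1, Gam.one_mem, col_mem_cols 1 0⟩ ⟨1, Gam.one_mem, col_mem_cols 1 1⟩ h
    exact absurd (col_injective 1 this) (by decide)
  have E1 : ∀ {a b : Fin 5}, a ≠ b → dist (pos ψ (col 1 a)) (pos ψ (col 1 b)) = l :=
    fun h => edges_all hT ψ hreg 1 g0 h
  have i1 := inner_self_of_dist (E1 (a := 1) (b := 4) (by decide))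
  have i2 := inner_of_dist (E1 (a := 0) (b := 4) (by decide)) (E1 (a := 1) (b := 4) (by decide))
    (E1 (by decide))
  have i3 := inner_of_dist (E1 (a := 2) (b := 4) (by decide)) (E1 (a := 1) (b := 4) (by decide))
    (E1 (by decide))
  have i4 := inner_of_dist (E1 (a := 3) (b := 4) (by decide)) (E1 (a := 1) (b := 4) (by decide))
    (E1 (by decide))
  generalize pos ψ (col 1 0) = p0 at *
  generalize pos ψ (col 1 1) = p1 at *
  generalize pos ψ (col 1 2) = f2 at *
  generalize pos ψ (col 1 3) = f3 at *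
  generalize pos ψ (col 1 4) = f4 at *
  have key : (2 : ℝ) • (p0 - f4) = (5 : ℝ) • (p1 - f4) - (f2 - f4) - (f3 - f4) := by
    have h1 : (2 : ℝ) • p0 = (5 : ℝ) • p1 - (f2 + f3 + f4) := by
      have h2 : p0 = (5 / 16 : ℝ) • p1 + (7 / 8 : ℝ) • p0 - (1 / 16 : ℝ) • (f2 + f3 + f4) := by
        conv_lhs => rw [s4, s3, s2, s1]
        module
      have h3 : (16 : ℝ) • p0 = (16 : ℝ) • ((5 / 16 : ℝ) • p1 + (7 / 8 : ℝ) • p0 -
        (1 / 16 : ℝ) • (f2 + f3 + f4)) := by rw [← h2]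
      have h4 : (16 : ℝ) • p0 - (14 : ℝ) • p0 = (5 : ℝ) • p1 - (f2 + f3 + f4) := by
        rw [h3]; module
      rw [← h4]; module
    have h5 : (2 : ℝ) • (p0 - f4) = (2 : ℝ) • p0 - (2 : ℝ) • f4 := by module
    rw [h5, h1]; module
  generalize p0 - f4 = A at key i2
  generalize p1 - f4 = B at key i1 i2 i3 i4
  generalize f2 - f4 = C at key i3
  generalize f3 - f4 = D at key i4
  have key2 := congrArg (fun x => inner ℝ x B) key
  simp only [inner_sub_left, inner_smul_left, RCLike.conj_to_real] at key2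
  rw [i1, i2, i3, i4] at key2
  have : 0 < l ^ 2 := by positivity
  linarith

end iso

theorem not_regular (𝒯 : Set (Set (E 4))) (hT : IsLFCTiling 𝒯) (hreg : IsRegular 𝒯) :
    ¬ IsIsomorphic T5 𝒯 := by
  rintro ⟨e⟩
  exact not_regular_aux hT (faceIso.trans e) hreg

end Pool.Agent.Helper22
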