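import Mathlib

/-!
# Locally finite face-to-face convex tilings of Euclidean space: definitions
-/

namespace Pool.Agent.Helper22.RegTiling

/-- Euclidean `d`-space. -/
abbrev E (d : ℕ) := EuclideanSpace ℝ (Fin d)

/-- `F` is a face of the convex polytope `P`: `F` is empty, or `F` is the set of maximisers over
`P` of some linear functional (the zero functional gives `P` itself). -/
def IsFace {d : ℕ} (P F : Set (E d)) : Prop :=
  F = ∅ ∨ ∃ l : E d →L[ℝ] ℝ, F = {x ∈ P | ∀ y ∈ P, l y ≤ l x}

/-- LFC tilings of Euclidean `d`-space: the tiles are convex `d`-polytopes (convex hulls of finite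
sets, with nonempty interior), they cover the space, distinct tiles have disjoint interiors, any
two tiles meet in a (possibly empty) face of each, and each bounded set meets only finitely many
tiles. -/
structure IsLFCTiling {d : ℕ} (𝒯 : Set (Set (E d))) : Prop where
  isPolytope : ∀ T ∈ 𝒯, ∃ S : Set (E d), S.Finite ∧ T = convexHull ℝ S
  interior_nonempty : ∀ T ∈ 𝒯, (interior T).Nonempty
  cover : ⋃₀ 𝒯 = Set.univ
  interiors_disjoint : ∀ T ∈ 𝒯, ∀ T' ∈ 𝒯, T ≠ T' → Disjoint (interior T) (interior T')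
  faceToFace : ∀ T ∈ 𝒯, ∀ T' ∈ 𝒯, IsFace T (T ∩ T') ∧ IsFace T' (T ∩ T')
  locallyFinite : ∀ B : Set (E d), Bornology.IsBounded B → {T | T ∈ 𝒯 ∧ (T ∩ B).Nonempty}.Finite

/-- The face lattice of a tiling: the faces of the tiles (the tiles included), together with the
empty face and the whole space, ordered by inclusion. -/
def FaceLattice {d : ℕ} (𝒯 : Set (Set (E d))) : Type :=
  {F : Set (E d) // F = ∅ ∨ F = Set.univ ∨ ∃ T ∈ 𝒯, IsFace T F}

instance {d : ℕ} (𝒯 : Set (Set (E d))) : PartialOrder (FaceLattice 𝒯) :=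
  inferInstanceAs (PartialOrder {F : Set (E d) // F = ∅ ∨ F = Set.univ ∨ ∃ T ∈ 𝒯, IsFace T F})

/-- Combinatorially regular: the automorphism group of the face lattice (all order isomorphisms
onto itself) acts transitively on the flags (maximal chains). -/
def IsCombRegular {d : ℕ} (𝒯 : Set (Set (E d))) : Prop :=
  ∀ Φ Ψ : Flag (FaceLattice 𝒯), ∃ e : FaceLattice 𝒯 ≃o FaceLattice 𝒯, Flag.map e Φ = Ψ

/-- The members of a flag of the face lattice, as a set of subsets of Euclidean space. -/
def flagSets {d : ℕ} {𝒯 : Set (Set (E d))} (Φ : Flag (FaceLattice 𝒯)) : Set (Set (E d)) :=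
  {F | ∃ x ∈ Φ, x.1 = F}

/-- Regular: the group of Euclidean isometries mapping the tiling onto itself acts transitively on
the flags. -/
def IsRegular {d : ℕ} (𝒯 : Set (Set (E d))) : Prop :=
  ∀ Φ Ψ : Flag (FaceLattice 𝒯), ∃ g : E d ≃ᵢ E d,
    (fun T => g '' T) '' 𝒯 = 𝒯 ∧ (fun F => g '' F) '' flagSets Φ = flagSets Ψ

/-- Two tilings are isomorphic if their face lattices are isomorphic as posets. -/
def IsIsomorphic {d : ℕ} (𝒯 𝒯' : Set (Set (E d))) : Prop :=
  Nonempty (FaceLattice 𝒯 ≃o FaceLattice 𝒯')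

end Pool.Agent.Helper22.RegTiling
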