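import Pool.Agent.Helper22.Hyp5b
import Pool.Agent.Helper22.TilingDefs

/-!
# The tiles and the covering property
-/

namespace Pool.Agent.Helper22

open Matrix RegTiling

/-- Integral vectors. -/
abbrev ZV := Fin 5 → ZP
/-- Units. -/
abbrev UU := (Matrix (Fin 5) (Fin 5) ZP)ˣ

/-- Projection along the time axis. -/
noncomputable def pr : (Fin 5 → ℝ) →ₗ[ℝ] E 4 where
  toFun X := WithLp.toLp 2 (fun i : Fin 4 => X i.castSucc - X (Fin.last 4))
  map_add' X Y := by
    ext i; simp; ring
  map_smul' c X := by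
    ext i; simp; ring

theorem pr_apply (X : Fin 5 → ℝ) (i : Fin 4) : pr X i = X i.castSucc - X (Fin.last 4) := rfl

theorem pr_ones : pr ones = 0 := by
  ext i; simp [pr_apply, ones]

theorem pr_eq_zero {X : Fin 5 → ℝ} (h : pr X = 0) : ∃ c : ℝ, X = c • ones := by
  refine ⟨X (Fin.last 4), ?_⟩
  funext i
  refine Fin.lastCases ?_ (fun j => ?_) i
  · simp [ones]
  · have := congrFun (congrArg (fun z : E 4 => (z : Fin 4 → ℝ)) h) j
    have h2 : X j.castSucc - X (Fin.last 4) = 0 := this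
    simp only [Pi.smul_apply, ones, smul_eq_mul, mul_one]; linarith

theorem pr_eq {X Y : Fin 5 → ℝ} (h : pr X = pr Y) : ∃ c : ℝ, X = Y + c • ones := by
  obtain ⟨c, hc⟩ := pr_eq_zero (X := X - Y) (by rw [map_sub, h, sub_self])
  exact ⟨c, by rw [← hc]; abel⟩

/-- A section of the projection. -/
noncomputable def sec (y : E 4) : Fin 5 → ℝ := Fin.snoc (fun i : Fin 4 => y i) 0

theorem pr_sec (y : E 4) : pr (sec y) = y := by
  ext i
  rw [pr_apply, sec, Fin.snoc_castSucc, Fin.snoc_last, sub_zero]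

/-- The point of `E 4` given by an integral vector. -/
noncomputable def PP (v : ZV) : E 4 := pr (evv v)

/-- The `j`-th vertex of the frame `g`. -/
def col (g : UU) (j : Fin 5) : ZV := (g : Matrix (Fin 5) (Fin 5) ZP) *ᵥ Pi.single j 1

theorem col_injective (g : UU) : Function.Injective (col g) := by
  intro i j h
  have h1 : (g⁻¹ : UU).val *ᵥ col g i = (g⁻¹ : UU).val *ᵥ col g j := by rw [h]
  unfold col at h1
  rw [Matrix.mulVec_mulVec, Matrix.mulVec_mulVec, Units.inv_mul, Matrix.one_mulVec,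
    Matrix.one_mulVec] at h1
  by_contra hij
  have := congrFun h1 i
  simp [hij] at this

/-- The vertex set of the frame `g`. -/
def cols (g : UU) : Finset ZV := Finset.univ.image (col g)

theorem mem_cols {g : UU} {v : ZV} : v ∈ cols g ↔ ∃ j, col g j = v := by
  simp [cols]

theorem col_mem_cols (g : UU) (j : Fin 5) : col g j ∈ cols g := mem_cols.mpr ⟨j, rfl⟩

theorem cols_card (g : UU) : (cols g).card = 5 := by
  rw [cols, Finset.card_image_of_injective _ (col_injective g)]; simp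

theorem col_mem_VV {g : UU} (hg : g ∈ Gam) (j : Fin 5) : col g j ∈ VV :=
  Gam.mem_VV hg (single_mem_VV j)

theorem evv_col (g : UU) (j : Fin 5) : evv (col g j) = act g (Pi.single j 1) := by
  unfold col
  rw [evv_mulVec]
  congr 1
  funext i
  simp only [evv, Pi.single_apply]
  split_ifs <;> simp

theorem act_eq_sum (g : UU) (x : Fin 5 → ℝ) : act g x = ∑ j, x j • evv (col g j) := by
  have h1 : x = ∑ j, x j • (Pi.single j 1 : Fin 5 → ℝ) := by
    funext i
    simp [Finset.sum_apply, Pi.single_apply]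
  conv_lhs => rw [h1]
  simp only [Fin.sum_univ_five, act_add, act_smul, evv_col]

/-- The convex hull of a finite set of vertices. -/
noncomputable def hull (σ : Finset ZV) : Set (E 4) := convexHull ℝ (PP '' (σ : Set ZV))

theorem hull_mono {σ τ : Finset ZV} (h : σ ⊆ τ) : hull σ ⊆ hull τ :=
  convexHull_mono (Set.image_mono (by exact_mod_cast h))

theorem mem_hull {g : UU} {σ : Finset ZV} (hσ : σ ⊆ cols g) {y : E 4} :
    y ∈ hull σ ↔ ∃ x : Fin 5 → ℝ, (∀ j, 0 ≤ x j) ∧ sm x = 1 ∧ (∀ j, col g j ∉ σ → x j = 0) ∧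
      y = pr (act g x) := by
  constructor
  · intro hy
    let D : Set (Fin 5 → ℝ) := {x | (∀ j, 0 ≤ x j) ∧ sm x = 1 ∧ (∀ j, col g j ∉ σ → x j = 0)}
    have hD : Convex ℝ D := by
      rintro x ⟨h1, h2, h3⟩ z ⟨k1, k2, k3⟩ a b ha hb hab
      refine ⟨?_, ?_, ?_⟩
      · intro j
        have := h1 j
        have := k1 j
        simp only [Pi.add_apply, Pi.smul_apply, smul_eq_mul]
        positivity
      · have : sm (a • x + b • z) = a * sm x + b * sm z := by
          simp only [sm, Fin.sum_univ_five, Pi.add_apply, Pi.smul_apply, smul_eq_mul]; ring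
        rw [this, h2, k2]; linarith
      · intro j hj
        simp [h3 j hj, k3 j hj]
    let Lm : (Fin 5 → ℝ) →ₗ[ℝ] E 4 :=
      { toFun := fun x => pr (act g x)
        map_add' := fun x z => by rw [act_add, map_add]
        map_smul' := fun c x => by rw [act_smul, map_smul]; rfl }
    have hLD : Convex ℝ (Lm '' D) := hD.linear_image Lm
    have hsub : PP '' (σ : Set ZV) ⊆ Lm '' D := by
      rintro _ ⟨v, hv, rfl⟩
      obtain ⟨j, hj⟩ := mem_cols.mp (hσ hv)
      refine ⟨Pi.single j 1, ⟨?_, ?_, ?_⟩, ?_⟩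
      · intro i
        rw [Pi.single_apply]; split_ifs <;> norm_num
      · simp [sm]
      · intro i hi
        rw [Pi.single_apply, if_neg]
        rintro rfl
        exact hi (hj ▸ hv)
      · change pr (act g (Pi.single j 1)) = PP v
        rw [← evv_col, hj]; rfl
    obtain ⟨x, ⟨h1, h2, h3⟩, rfl⟩ := convexHull_min hsub hLD hy
    exact ⟨x, h1, h2, h3, rfl⟩
  · rintro ⟨x, h1, h2, h3, rfl⟩
    rw [act_eq_sum, map_sum]
    have h4 : ∑ j, pr (x j • evv (col g j)) =
        ∑ j ∈ Finset.univ.filter (fun j => col g j ∈ σ), x j • PP (col g j) := by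
      rw [Finset.sum_filter]
      apply Finset.sum_congr rfl
      intro j _
      split_ifs with hj
      · rw [map_smul]; rfl
      · rw [h3 j hj]; simp
    have h5 : ∑ j ∈ Finset.univ.filter (fun j => col g j ∈ σ), x j = 1 := by
      rw [← h2, sm, Finset.sum_filter]
      apply Finset.sum_congr rfl
      intro j _
      split_ifs with hj
      · rfl
      · rw [h3 j hj]
    rw [h4]
    refine (convex_convexHull ℝ _).sum_mem (fun j _ => h1 j) h5 ?_
    intro j hj
    rw [Finset.mem_filter] at hj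
    exact subset_convexHull ℝ _ ⟨col g j, hj.2, rfl⟩

/-- Lower bound: points over a tile are above all supporting hyperplanes. -/
theorem one_le_of_mem {g h : UU} (hg : g ∈ Gam) (hh : h ∈ Gam) {x : Fin 5 → ℝ}
    (hx : ∀ j, 0 ≤ x j) (hs : sm x = 1) :
    1 ≤ sm (act (h⁻¹ : UU) (act g x)) ∧
      (sm (act (h⁻¹ : UU) (act g x)) = 1 → ∀ j, x j ≠ 0 → col g j ∈ cols h) := by
  have hv : ∀ j, (h⁻¹ : UU).val *ᵥ col g j ∈ VV := fun j =>
    Gam.mem_VV (Gam.inv_mem hh) (col_mem_VV hg j)
  have h1 : sm (act (h⁻¹ : UU) (act g x)) =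
      ∑ j, x j * sm (evv ((h⁻¹ : UU).val *ᵥ col g j)) := by
    rw [act_eq_sum g x]
    simp only [evv_mulVec, Fin.sum_univ_five, act_add, act_smul]
    simp only [sm, Fin.sum_univ_five, Pi.add_apply, Pi.smul_apply, smul_eq_mul]
    ring
  have h2 : ∀ j, x j ≤ x j * sm (evv ((h⁻¹ : UU).val *ᵥ col g j)) := fun j => by
    have := one_le_sm (hv j)
    nlinarith [hx j]
  constructor
  · rw [h1, ← hs, sm]
    exact Finset.sum_le_sum (fun j _ => h2 j)
  · intro h3 j hj
    rw [h1, ← hs, sm] at h3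
    have h4 := (Finset.sum_eq_sum_iff_of_le (fun j _ => h2 j)).mp h3.symm j (Finset.mem_univ j)
    have h5 : sm (evv ((h⁻¹ : UU).val *ᵥ col g j)) = 1 := by
      have : x j * (sm (evv ((h⁻¹ : UU).val *ᵥ col g j)) - 1) = 0 := by linarith
      rcases mul_eq_zero.mp this with h6 | h6
      · exact absurd h6 hj
      · linarith
    rcases basis_or (hv j) with ⟨i, hi⟩ | h6
    · rw [mem_cols]
      refine ⟨i, ?_⟩
      unfold col
      rw [← hi, Matrix.mulVec_mulVec, Units.mul_inv, Matrix.one_mulVec]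
      rfl
    · linarith

/-- The lift of a point of a tile is unique, and the support is common. -/
theorem lift_unique {g h : UU} (hg : g ∈ Gam) (hh : h ∈ Gam) {x z : Fin 5 → ℝ}
    (hx : ∀ j, 0 ≤ x j) (hs : sm x = 1) (hz : ∀ j, 0 ≤ z j) (hsz : sm z = 1)
    (he : pr (act g x) = pr (act h z)) :
    act g x = act h z ∧ ∀ j, x j ≠ 0 → col g j ∈ cols h := by
  obtain ⟨c, hc⟩ := pr_eq he
  have a1 := (one_le_of_mem hg hh hx hs).1
  have a2 := (one_le_of_mem hh hg hz hsz).1
  have hadd : ∀ X Y : Fin 5 → ℝ, sm (X + Y) = sm X + sm Y := by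
    intro X Y
    simp only [sm, Fin.sum_univ_five, Pi.add_apply]; ring
  have hsmul : ∀ (t : ℝ) (Y : Fin 5 → ℝ), sm (t • Y) = t * sm Y := by
    intro X Y
    simp only [sm, Fin.sum_univ_five, Pi.smul_apply, smul_eq_mul]; ring
  have b1 : sm (act (h⁻¹ : UU) (act g x)) = 1 + c * sm (act (h⁻¹ : UU) ones) := by
    rw [hc, act_add, act_smul, act_inv_act, hadd, hsmul, hsz]
  have b2 : sm (act (g⁻¹ : UU) (act h z)) = 1 - c * sm (act (g⁻¹ : UU) ones) := by
    have : act h z = act g x + (-c) • ones := by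
      rw [hc]; funext i; simp
    rw [this, act_add, act_smul, act_inv_act, hadd, hsmul, hs]
    ring
  have p1 : 0 < sm (act (h⁻¹ : UU) ones) := (Gam.fut (Gam.inv_mem hh) ones_fut).2
  have p2 : 0 < sm (act (g⁻¹ : UU) ones) := (Gam.fut (Gam.inv_mem hg) ones_fut).2
  have hc0 : c = 0 := by
    apply le_antisymm
    · by_contra hcon
      push Not at hcon
      nlinarith
    · by_contra hcon
      push Not at hcon
      nlinarith
  rw [hc0] at hc b1
  refine ⟨by rw [hc]; simp, ?_⟩
  exact (one_le_of_mem hg hh hx hs).2 (by rw [b1]; ring)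

/-- Two faces meet in the face spanned by the common vertices. -/
theorem hull_inter {g h : UU} (hg : g ∈ Gam) (hh : h ∈ Gam) {σ τ : Finset ZV}
    (hσ : σ ⊆ cols g) (hτ : τ ⊆ cols h) : hull σ ∩ hull τ = hull (σ ∩ τ) := by
  apply Set.Subset.antisymm
  · rintro y ⟨h1, h2⟩
    obtain ⟨x, a1, a2, a3, a4⟩ := (mem_hull hσ).mp h1
    obtain ⟨z, b1, b2, b3, b4⟩ := (mem_hull hτ).mp h2
    obtain ⟨c1, c2⟩ := lift_unique hg hh a1 a2 b1 b2 (a4 ▸ b4)
    refine (mem_hull (g := g) (Finset.inter_subset_left.trans hσ)).mpr ⟨x, a1, a2, ?_, a4⟩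
    intro j hj
    by_contra hne
    apply hj
    rw [Finset.mem_inter]
    refine ⟨by_contra (fun hc => hne (a3 j hc)), ?_⟩
    -- the coordinates in the two frames agree
    obtain ⟨i, hi⟩ := mem_cols.mp (c2 j hne)
    by_contra hτj
    have hzi : z i = 0 := b3 i (by rw [hi]; exact hτj)
    -- compare the support of z: all vertices of h with z nonzero are in cols g
    obtain ⟨d1, d2⟩ := lift_unique hh hg b1 b2 a1 a2 (a4 ▸ b4).symm
    -- z is the coordinate vector of act g x in the frame h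
    have e1 : z = act (h⁻¹ : UU) (act g x) := by rw [c1, act_inv_act]
    have e2 : act (h⁻¹ : UU) (act g x) i =
        ∑ k, x k * (act (h⁻¹ : UU) (evv (col g k))) i := by
      rw [act_eq_sum g x]
      simp only [Fin.sum_univ_five, act_add, act_smul, Pi.add_apply, Pi.smul_apply, smul_eq_mul]
    have e3 : ∀ k, 0 ≤ x k * (act (h⁻¹ : UU) (evv (col g k))) i := by
      intro k
      by_cases hk : x k = 0
      · rw [hk]; simp
      · obtain ⟨l, hl⟩ := mem_cols.mp (c2 k hk)
        have : act (h⁻¹ : UU) (evv (col g k)) = Pi.single l 1 := by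
          rw [← hl, evv_col, act_inv_act]
        rw [this, Pi.single_apply]
        split_ifs
        · simpa using a1 k
        · simp
    have e4 : x j * (act (h⁻¹ : UU) (evv (col g j))) i = x j := by
      have : act (h⁻¹ : UU) (evv (col g j)) = Pi.single i 1 := by
        rw [← hi, evv_col, act_inv_act]
      rw [this, Pi.single_apply, if_pos rfl, mul_one]
    have e5 : x j ≤ z i := by
      rw [e1, e2, ← e4]
      exact Finset.single_le_sum
        (f := fun k => x k * (act (h⁻¹ : UU) (evv (col g k))) i) (fun k _ => e3 k)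
        (Finset.mem_univ j)
    have : 0 < x j := lt_of_le_of_ne (a1 j) (Ne.symm hne)
    linarith
  · exact Set.subset_inter (hull_mono Finset.inter_subset_left)
      (hull_mono Finset.inter_subset_right)

/-- Nonnegative coordinates: the norm is at least the square of the sum. -/
theorem sq_sum_le {x : Fin 5 → ℝ} (hx : ∀ j, 0 ≤ x j) : sm x ^ 2 ≤ frm ph x x := by
  have hp := ph_pos
  have h1 : ∑ i, x i * x i ≤ (∑ i, x i) * (∑ i, x i) := by
    rw [Finset.sum_mul]
    apply Finset.sum_le_sum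
    intro i _
    exact mul_le_mul_of_nonneg_left
      (Finset.single_le_sum (fun j _ => hx j) (Finset.mem_univ i)) (hx i)
  unfold frm sm
  nlinarith

/-- Every point of `E 4` lies in a tile. -/
theorem covering (y : E 4) : ∃ g ∈ Gam, y ∈ hull (cols g) := by
  classical
  have hp := ph_pos
  have hadd : ∀ X Y : Fin 5 → ℝ, sm (X + Y) = sm X + sm Y := by
    intro X Y
    simp only [sm, Fin.sum_univ_five, Pi.add_apply]; ring
  have hsmul : ∀ (t : ℝ) (Y : Fin 5 → ℝ), sm (t • Y) = t * sm Y := by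
    intro X Y
    simp only [sm, Fin.sum_univ_five, Pi.smul_apply, smul_eq_mul]; ring
  have hones : sm ones = 5 := by simp [sm, ones]
  -- the base point over `y` of sum zero
  set X0 : Fin 5 → ℝ := sec y - (sm (sec y) / 5) • ones with hX0
  have hX0s : sm X0 = 0 := by
    have : sm X0 = sm (sec y) - (sm (sec y) / 5) * sm ones := by
      rw [hX0]
      simp only [sm, Fin.sum_univ_five, Pi.sub_apply, Pi.smul_apply, smul_eq_mul]; ring
    rw [this, hones]; ring
  have hX0p : pr X0 = y := by rw [hX0, map_sub, map_smul, pr_ones, pr_sec]; simp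
  have hq := frm_self_nonpos hX0s
  have hfo : ∀ X : Fin 5 → ℝ, frm ph ones X = (5 + 8 * ph) * sm X := fun X => frm_one_left ph X
  -- points over `y`
  have hnorm : ∀ t : ℝ, frm ph (X0 + t • ones) (X0 + t • ones) =
      frm ph X0 X0 + 5 * (5 + 8 * ph) * t ^ 2 := by
    intro t
    rw [frm_add_left, frm_add_right, frm_add_right, frm_smul_left, frm_smul_right,
      frm_smul_left, frm_smul_right, frm_comm ph X0 ones, hfo, hfo, hX0s, hones]
    ring
  set t1 : ℝ := Real.sqrt ((1 - frm ph X0 X0) / (5 * (5 + 8 * ph))) with ht1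
  have ht1sq : 5 * (5 + 8 * ph) * t1 ^ 2 = 1 - frm ph X0 X0 := by
    rw [ht1, Real.sq_sqrt (div_nonneg (by linarith) (by positivity))]
    field_simp
  have ht1pos : 0 < t1 := by
    rw [ht1]; apply Real.sqrt_pos.mpr; exact div_pos (by linarith) (by positivity)
  have hfut : ∀ t, t1 ≤ t → Fut (X0 + t • ones) ∧ 1 ≤ frm ph (X0 + t • ones) (X0 + t • ones) := by
    intro t ht
    have h1 : 1 ≤ frm ph (X0 + t • ones) (X0 + t • ones) := by
      rw [hnorm]
      have : 5 * (5 + 8 * ph) * t1 ^ 2 ≤ 5 * (5 + 8 * ph) * t ^ 2 := by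
        apply mul_le_mul_of_nonneg_left _ (by positivity)
        exact pow_le_pow_left₀ ht1pos.le ht 2
      linarith
    refine ⟨⟨by linarith, ?_⟩, h1⟩
    rw [hadd, hsmul, hX0s, hones]; linarith
  -- existence of a minimiser
  have hmin : ∀ X : Fin 5 → ℝ, Fut X → 1 ≤ frm ph X X → ∃ g ∈ Gam, ∀ h ∈ Gam,
      sm (act (g⁻¹ : UU) X) ≤ sm (act (h⁻¹ : UU) X) := by
    intro X hX h1
    set B : ℝ := sm X with hB
    have hfin := finite_near B
    set F := {g : UU | g ∈ Gam ∧ ∃ X, Fut X ∧ 1 ≤ frm ph X X ∧ sm X ≤ B ∧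
      sm (act (g⁻¹ : UU) X) ≤ B} with hF
    have hF' : {g : UU | g ∈ Gam ∧ sm (act (g⁻¹ : UU) X) ≤ B}.Finite := by
      refine hfin.subset ?_
      rintro g ⟨hg1, hg2⟩
      exact ⟨hg1, X, hX, h1, le_refl _, hg2⟩
    have hne : {g : UU | g ∈ Gam ∧ sm (act (g⁻¹ : UU) X) ≤ B}.Nonempty := by
      refine ⟨1, Gam.one_mem, ?_⟩
      rw [inv_one, Units.val_one, act_one]
    obtain ⟨g, hg, hgmin⟩ := Set.exists_min_image _ (fun g : UU => sm (act (g⁻¹ : UU) X)) hF' hne
    refine ⟨g, hg.1, ?_⟩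
    intro h hh
    by_cases hle : sm (act (h⁻¹ : UU) X) ≤ B
    · exact hgmin h ⟨hh, hle⟩
    · push Not at hle
      exact hg.2.trans hle.le
  -- at the point of norm one
  obtain ⟨hf1, hn1⟩ := hfut t1 le_rfl
  set X1 := X0 + t1 • ones with hX1
  obtain ⟨g1, hg1, hg1min⟩ := hmin X1 hf1 hn1
  have hX1n : frm ph X1 X1 = 1 := by rw [hX1, hnorm, ht1sq]; ring
  have hg1le : sm (act (g1⁻¹ : UU) X1) ≤ 1 := by
    have h1 := sq_sum_le (nonneg_of_min hg1 X1 hg1min)
    rw [Gam.isom (Gam.inv_mem hg1), hX1n] at h1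
    nlinarith
  -- heights
  set ht : UU → ℝ := fun g => (1 - sm (act (g⁻¹ : UU) X1)) / sm (act (g⁻¹ : UU) ones) with hht
  have hpos : ∀ g ∈ Gam, 0 < sm (act (g⁻¹ : UU) ones) := fun g hg =>
    (Gam.fut (Gam.inv_mem hg) ones_fut).2
  have hfinG : {g : UU | g ∈ Gam ∧ 0 ≤ ht g}.Finite := by
    refine (finite_near (max 1 (sm X1))).subset ?_
    rintro g ⟨hg, hge⟩
    refine ⟨hg, X1, hf1, hn1, le_max_right _ _, ?_⟩
    have h1 := hpos g hg
    have h2 : 0 ≤ 1 - sm (act (g⁻¹ : UU) X1) := by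
      have := mul_nonneg hge h1.le
      rwa [hht, div_mul_cancel₀ _ h1.ne'] at this
    exact le_trans (by linarith) (le_max_left _ _)
  have hneG : {g : UU | g ∈ Gam ∧ 0 ≤ ht g}.Nonempty :=
    ⟨g1, hg1, div_nonneg (by linarith) (hpos g1 hg1).le⟩
  obtain ⟨g, hg, hgmax⟩ := Set.exists_max_image _ ht hfinG hneG
  have hmax : ∀ h ∈ Gam, ht h ≤ ht g := by
    intro h hh
    by_cases hle : 0 ≤ ht h
    · exact hgmax h ⟨hh, hle⟩
    · push Not at hle
      linarith [hg.2]
  set X2 := X1 + (ht g) • ones with hX2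
  have hX2e : X2 = X0 + (t1 + ht g) • ones := by
    rw [hX2, hX1, add_assoc, ← add_smul]
  have hval : ∀ h : UU, sm (act (h⁻¹ : UU) X2) =
      sm (act (h⁻¹ : UU) X1) + ht g * sm (act (h⁻¹ : UU) ones) := by
    intro h
    rw [hX2, act_add, act_smul, hadd, hsmul]
  have hgval : sm (act (g⁻¹ : UU) X2) = 1 := by
    rw [hval]
    have h1 := hpos g hg.1
    rw [hht]
    simp only
    rw [div_mul_cancel₀ _ h1.ne']; ring
  have hall : ∀ h ∈ Gam, 1 ≤ sm (act (h⁻¹ : UU) X2) := by
    intro h hh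
    rw [hval]
    have h1 := hpos h hh
    have h2 := hmax h hh
    have h3 : ht h * sm (act (h⁻¹ : UU) ones) ≤ ht g * sm (act (h⁻¹ : UU) ones) :=
      mul_le_mul_of_nonneg_right h2 h1.le
    have h4 : ht h * sm (act (h⁻¹ : UU) ones) = 1 - sm (act (h⁻¹ : UU) X1) := by
      rw [hht]
      simp only
      rw [div_mul_cancel₀ _ h1.ne']
    linarith
  have hnn := nonneg_of_min hg.1 X2 (fun h hh => by rw [hgval]; exact hall h hh)
  refine ⟨g, hg.1, (mem_hull (Finset.Subset.refl _)).mpr ⟨act (g⁻¹ : UU) X2, hnn, hgval, ?_, ?_⟩⟩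
  · intro j hj
    exact absurd (col_mem_cols g j) hj
  · rw [act_act_inv, hX2e, map_add, map_smul, pr_ones, hX0p]; simp

end Pool.Agent.Helper22
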