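import Mathlib

/-!
# The ring `Z[phi]` and its two real places
-/

namespace Pool.Agent.Helper22

/-- The golden ratio, as an opaque real constant. -/
noncomputable def ph : ℝ := Real.goldenRatio

theorem ph_sq : ph ^ 2 = ph + 1 := Real.goldenRatio_sq

theorem ph_pos : 0 < ph := Real.goldenRatio_pos

theorem ph_lo : 1.618 < ph := by
  have h1 := ph_sq
  have h2 := ph_pos
  nlinarith

theorem ph_hi : ph < 1.6181 := by
  have h1 := ph_sq
  have h2 := ph_pos
  nlinarith

theorem ph_cube : ph ^ 3 = 2 * ph + 1 := by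
  have h1 := ph_sq
  calc ph ^ 3 = ph * ph ^ 2 := by ring
    _ = ph * (ph + 1) := by rw [h1]
    _ = ph ^ 2 + ph := by ring
    _ = 2 * ph + 1 := by rw [h1]; ring

/-- The ring `Z[phi]`. -/
abbrev ZP := QuadraticAlgebra ℤ 1 1

/-- The real embedding `phi ↦ f` for a real root `f` of `x^2 = x + 1`. -/
noncomputable def evAt (f : ℝ) (hf : f ^ 2 = f + 1) : ZP →+* ℝ where
  toFun z := z.re + z.im * f
  map_one' := by
    rw [QuadraticAlgebra.re_one, QuadraticAlgebra.im_one]; simp
  map_zero' := by
    rw [QuadraticAlgebra.re_zero, QuadraticAlgebra.im_zero]; simp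
  map_add' x y := by simp; ring
  map_mul' x y := by
    simp only [QuadraticAlgebra.re_mul, QuadraticAlgebra.im_mul]
    push_cast
    linear_combination (-(x.im : ℝ) * y.im) * hf

/-- The embedding `phi ↦ 1.618...`. -/
noncomputable def ev : ZP →+* ℝ := evAt ph ph_sq

theorem ph_conj : (1 - ph) ^ 2 = (1 - ph) + 1 := by
  have := ph_sq
  nlinarith

/-- The conjugate embedding `phi ↦ 1 - 1.618...`. -/
noncomputable def evc : ZP →+* ℝ := evAt (1 - ph) ph_conj

theorem ev_apply (z : ZP) : ev z = z.re + z.im * ph := rfl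
theorem evc_apply (z : ZP) : evc z = z.re + z.im * (1 - ph) := rfl

theorem evc_injective : Function.Injective evc := by
  have key : ∀ z : ZP, evc z = 0 → z = 0 := by
    intro z hz
    rw [evc_apply] at hz
    -- norm argument: (re + im (1 - ph)) (re + im ph) = re^2 + re im - im^2 is an integer
    have h1 : ((z.re : ℝ) + z.im * (1 - ph)) * (z.re + z.im * ph) = 0 := by rw [hz]; ring
    have h2 : ((z.re ^ 2 + z.re * z.im - z.im ^ 2 : ℤ) : ℝ) = 0 := by
      push_cast
      have := ph_sq
      linear_combination h1 + (z.im : ℝ) ^ 2 * this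
    have h3 : z.re ^ 2 + z.re * z.im - z.im ^ 2 = 0 := by exact_mod_cast h2
    -- 4 * that = (2 re + im)^2 - 5 im^2
    have h4 : (2 * z.re + z.im) ^ 2 = 5 * z.im ^ 2 := by linarith
    by_cases him : z.im = 0
    · rw [him] at h4
      have : z.re = 0 := by
        have : (2 * z.re) ^ 2 = 0 := by simpa using h4
        have := pow_eq_zero_iff (two_ne_zero) |>.mp this
        omega
      ext
      · simpa using this
      · simpa using him
    · exfalso
      have h5 : Irrational (Real.sqrt 5) := by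
        have : Nat.Prime 5 := by norm_num
        simpa using this.irrational_sqrt
      apply h5
      refine ⟨(|2 * z.re + z.im| : ℤ) / (|z.im| : ℤ), ?_⟩
      have hpos : (0 : ℝ) < |(z.im : ℝ)| := by
        rw [abs_pos]; exact_mod_cast him
      push_cast
      rw [eq_comm, Real.sqrt_eq_iff_mul_self_eq (by norm_num) (by positivity)]
      rw [div_mul_div_comm, abs_mul_abs_self, abs_mul_abs_self]
      have h6 : ((2 : ℝ) * z.re + z.im) * (2 * z.re + z.im) = 5 * (z.im * z.im) := by
        have : (((2 * z.re + z.im) ^ 2 : ℤ) : ℝ) = ((5 * z.im ^ 2 : ℤ) : ℝ) := by rw [h4]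
        push_cast at this
        linarith
      rw [h6]
      have : (z.im : ℝ) * z.im ≠ 0 := by
        have : (z.im : ℝ) ≠ 0 := by exact_mod_cast him
        exact mul_ne_zero this this
      field_simp
  intro x y hxy
  have : evc (x - y) = 0 := by rw [map_sub, hxy, sub_self]
  exact sub_eq_zero.mp (key _ this)

/-- Only finitely many elements of `Z[phi]` are bounded at both places. -/
theorem finite_bdd (B : ℝ) : {z : ZP | |ev z| ≤ B ∧ |evc z| ≤ B}.Finite := by
  have hsub : {z : ZP | |ev z| ≤ B ∧ |evc z| ≤ B} ⊆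
      (fun p : ℤ × ℤ => (⟨p.1, p.2⟩ : ZP)) ''
        ((Set.Icc (-⌈4 * B⌉) ⌈4 * B⌉) ×ˢ (Set.Icc (-⌈B⌉) ⌈B⌉)) := by
    rintro z ⟨h1, h2⟩
    rw [ev_apply, abs_le] at h1
    rw [evc_apply, abs_le] at h2
    have hl := ph_lo
    have hh := ph_hi
    have hB : 0 ≤ B := by linarith
    have e1 : (z.im : ℝ) * (2 * ph - 1) ≤ 2 * B := by linarith
    have e2 : -(2 * B) ≤ (z.im : ℝ) * (2 * ph - 1) := by linarith
    have e3 : (z.im : ℝ) ≤ B := by
      by_contra hc
      push Not at hc
      nlinarith
    have e4 : -B ≤ (z.im : ℝ) := by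
      by_contra hc
      push Not at hc
      nlinarith
    have e5 : (z.re : ℝ) ≤ 4 * B := by nlinarith
    have e6 : -(4 * B) ≤ (z.re : ℝ) := by nlinarith
    refine ⟨(z.re, z.im), ⟨⟨?_, ?_⟩, ⟨?_, ?_⟩⟩, rfl⟩
    · have : ((-⌈4 * B⌉ : ℤ) : ℝ) ≤ z.re := by
        push_cast
        have := Int.le_ceil (4 * B)
        linarith
      exact_mod_cast this
    · have : ((z.re : ℤ) : ℝ) ≤ ⌈4 * B⌉ := by
        have := Int.le_ceil (4 * B)
        linarith
      exact_mod_cast this
    · have : ((-⌈B⌉ : ℤ) : ℝ) ≤ z.im := by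
        push_cast
        have := Int.le_ceil B
        linarith
      exact_mod_cast this
    · have : ((z.im : ℤ) : ℝ) ≤ ⌈B⌉ := by
        have := Int.le_ceil B
        linarith
      exact_mod_cast this
  exact (((Set.finite_Icc _ _).prod (Set.finite_Icc _ _)).image _).subset hsub

/-- Gap: an element of `Z[phi]` congruent to `1` mod `2` which is positive and has conjugate in
`[-1, 1]` is `1` or at least `1 + 2 phi`. -/
theorem gap {a : ZP} (h1 : Odd a.re) (h2 : Even a.im) (h3 : 0 < ev a) (h4 : |evc a| ≤ 1) :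
    a = 1 ∨ 1 + 2 * ph ≤ ev a := by
  rw [ev_apply] at h3
  rw [evc_apply, abs_le] at h4
  have hl := ph_lo
  have hh := ph_hi
  obtain ⟨m, hm⟩ := h1
  obtain ⟨n, hn⟩ := h2
  have hn0 : -1 < a.im := by
    by_contra hc
    push Not at hc
    have : (a.im : ℝ) ≤ -1 := by exact_mod_cast hc
    nlinarith
  rcases lt_or_ge a.im 1 with h5 | h5
  · left
    have h6 : a.im = 0 := by omega
    rw [h6] at h3 h4
    simp only [Int.cast_zero, zero_mul, add_zero] at h3 h4
    have h7 : 0 < a.re := by exact_mod_cast h3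
    have h8 : a.re ≤ 1 := by exact_mod_cast h4.2
    ext
    · rw [QuadraticAlgebra.re_one]; omega
    · rw [QuadraticAlgebra.im_one]; exact h6
  · right
    have h6 : 2 ≤ a.im := by omega
    have h7 : (2 : ℝ) ≤ a.im := by exact_mod_cast h6
    have h8 : (0 : ℝ) < a.re := by nlinarith
    have h9 : 0 < a.re := by exact_mod_cast h8
    have h10 : (1 : ℝ) ≤ a.re := by exact_mod_cast (show 1 ≤ a.re by omega)
    rw [ev_apply]
    nlinarith

end Pool.Agent.Helper22
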